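import Mathlib

set_option autoImplicit false

/-!
# Cut form of the two-player hat game: the four point argument

Functions `e : V → V` with values in vectors of weight two and arbitrary `y : V → V`
(`V = F_2^h`) satisfy: the number of pairs `(u, v)` with `⟨v, e u⟩ ≠ ⟨y v, u⟩` is at least
`|V|^2 / 8`.
-/

namespace Pool.H42.Hat

open Finset

/-- number of points where a `ZMod 2`-valued function does not vanish -/
def wt {G : Type*} [Fintype G] (F : G → ZMod 2) : ℕ := (univ.filter fun u => F u ≠ 0).card

lemma wt_eq_sum {G : Type*} [Fintype G] (F : G → ZMod 2) :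
    wt F = ∑ u, (if F u ≠ 0 then 1 else 0) := by
  simp [wt, Finset.card_filter]

lemma wt_congr {G : Type*} [Fintype G] {F H : G → ZMod 2} (h : ∀ u, F u = H u) : wt F = wt H := by
  have : F = H := funext h
  rw [this]

lemma wt_add_le {G : Type*} [Fintype G] (F H : G → ZMod 2) :
    wt (fun u => F u + H u) ≤ wt F + wt H := by
  rw [wt_eq_sum, wt_eq_sum, wt_eq_sum, ← Finset.sum_add_distrib]
  apply Finset.sum_le_sum
  intro u _
  generalize F u = a
  generalize H u = b
  revert a b
  decide

lemma wt_four {G : Type*} [Fintype G] (F1 F2 F3 F4 : G → ZMod 2)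
    (h : ∀ u, F4 u = F1 u + F2 u + F3 u) :
    wt (fun u => F1 u + F2 u) + wt (fun u => F1 u + F3 u) + wt (fun u => F2 u + F3 u)
      ≤ wt F1 + wt F2 + wt F3 + wt F4 := by
  simp only [wt_eq_sum, ← Finset.sum_add_distrib]
  apply Finset.sum_le_sum
  intro u _
  rw [h u]
  generalize F1 u = a
  generalize F2 u = b
  generalize F3 u = c
  revert a b c
  decide

/-- a nonzero additive function to `ZMod 2` takes the nonzero value exactly half of the time -/
lemma two_mul_wt_additive {G : Type*} [Fintype G] [AddCommGroup G] (φ : G → ZMod 2)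
    (hadd : ∀ a b, φ (a + b) = φ a + φ b) (hne : ∃ a, φ a ≠ 0) :
    2 * wt φ = Fintype.card G := by
  classical
  obtain ⟨a, ha⟩ := hne
  have h1 : wt φ = (univ.filter fun u => ¬ (φ u ≠ 0)).card := by
    unfold wt
    apply Finset.card_bij (fun u _ => u + a)
    · intro u hu
      simp only [mem_filter, mem_univ, true_and] at hu ⊢
      rw [hadd]
      revert hu ha
      generalize φ u = b
      generalize φ a = c
      revert b c
      decide
    · intro u _ v _ huv
      exact add_right_cancel huv
    · intro b hb
      refine ⟨b - a, ?_, by simp⟩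
      simp only [mem_filter, mem_univ, true_and] at hb ⊢
      have h2 : φ b = φ (b - a) + φ a := by
        rw [← hadd, sub_add_cancel]
      revert hb ha
      rw [h2]
      generalize φ (b - a) = b'
      generalize φ a = c
      revert b' c
      decide
  have h2 := Finset.card_filter_add_card_filter_not (s := (univ : Finset G)) (fun u => φ u ≠ 0)
  rw [← h1] at h2
  have h3 : wt φ = (univ.filter fun u => φ u ≠ 0).card := rfl
  rw [← h3] at h2
  rw [Finset.card_univ] at h2
  omega

lemma two_mul_wt_additive_le {G : Type*} [Fintype G] [AddCommGroup G] (φ : G → ZMod 2)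
    (hadd : ∀ a b, φ (a + b) = φ a + φ b) :
    2 * wt φ ≤ Fintype.card G := by
  by_cases hne : ∃ a, φ a ≠ 0
  · exact (two_mul_wt_additive φ hadd hne).le
  · push Not at hne
    have : wt φ = 0 := by
      unfold wt
      rw [Finset.card_eq_zero, Finset.filter_eq_empty_iff]
      intro u _
      simp [hne u]
    omega

abbrev V (h : ℕ) := Fin h → ZMod 2

lemma add_self_V {h : ℕ} (u : V h) : u + u = 0 := by
  funext i
  simp only [Pi.add_apply, Pi.zero_apply]
  generalize u i = a
  revert a
  decide

section
variable {h : ℕ} (e : V h → V h)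

/-- the error bit at label `u` for the vector `v` and the linear function given by `p` -/
def E (v p u : V h) : ZMod 2 := v ⬝ᵥ e u + p ⬝ᵥ u

lemma E_add (v v' p p' u : V h) : E e (v + v') (p + p') u = E e v p u + E e v' p' u := by
  unfold E
  rw [add_dotProduct, add_dotProduct]
  ring

/-- distance of the cut of `v` to the linear function `p` -/
def D (v p : V h) : ℕ := wt (E e v p)

lemma D_add_le (v v' p p' : V h) : D e (v + v') (p + p') ≤ D e v p + D e v' p' := by
  unfold D
  rw [wt_congr (E_add e v v' p p')]
  exact wt_add_le _ _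

lemma exists_dot_ne {p : V h} (hp : p ≠ 0) : ∃ u : V h, p ⬝ᵥ u ≠ 0 := by
  by_contra hcon
  push Not at hcon
  apply hp
  funext i
  have := hcon (Pi.single i 1)
  simpa using this

lemma two_mul_D_zero {p : V h} (hp : p ≠ 0) : 2 * D e 0 p = Fintype.card (V h) := by
  unfold D
  have h1 : wt (E e 0 p) = wt (fun u => p ⬝ᵥ u) := by
    apply wt_congr
    intro u
    simp [E]
  rw [h1]
  apply two_mul_wt_additive
  · intro a b
    exact dotProduct_add _ _ _
  · exact exists_dot_ne hp

/-- minimal distance and a minimiser -/
lemma exists_min (v : V h) : ∃ p : V h, ∀ q : V h, D e v p ≤ D e v q := by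
  obtain ⟨p, _, hp⟩ := Finset.exists_min_image (univ : Finset (V h)) (fun p => D e v p)
    ⟨0, mem_univ _⟩
  exact ⟨p, fun q => hp q (mem_univ _)⟩

/-- distinct linear functions are at distance one half -/
lemma half_le (v p q : V h) (hpq : p ≠ q) : Fintype.card (V h) ≤ 2 * D e v p + 2 * D e v q := by
  have h1 := D_add_le e v v p q
  rw [add_self_V] at h1
  have h2 : p + q ≠ 0 := by
    intro h0
    apply hpq
    have : p + q + q = q := by rw [h0, zero_add]
    rw [add_assoc, add_self_V, add_zero] at this
    exact this
  have h3 := two_mul_D_zero e h2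
  omega

end

end Pool.H42.Hat
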