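import Pool.Agent.H42.Hat.Q0

set_option autoImplicit false

namespace Pool.H42.Hat

open Finset

/-- winning pairs of a strategy pair, over `ZMod 2` -/
def wins {h : ℕ} (F G : V h → Fin h) (u v : V h) : ℕ :=
  if u (F v) ≠ 0 ∧ v (G u) ≠ 0 then 1 else 0

/-- the all-ones vector -/
def one (h : ℕ) : V h := fun _ => 1

lemma pointwise : ∀ a a' b b' : ZMod 2,
    ((if a ≠ 0 ∧ b ≠ 0 then 1 else 0) + (if a + 1 ≠ 0 ∧ b' ≠ 0 then 1 else 0)
      + (if a' ≠ 0 ∧ b + 1 ≠ 0 then 1 else 0) + (if a' + 1 ≠ 0 ∧ b' + 1 ≠ 0 then 1 else 0) : ℕ)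
      ≤ 1 + (if a + a' ≠ 0 ∧ b + b' ≠ 0 then 1 else 0) := by decide

lemma pointwise2 : ∀ a b : ZMod 2,
    (2 * (if a ≠ 0 ∧ b ≠ 0 then 1 else 0) + (if b + a ≠ 0 then 1 else 0) : ℕ)
      = (if a ≠ 0 then 1 else 0) + (if b ≠ 0 then 1 else 0) := by decide

lemma dot_pair {h : ℕ} (i j : Fin h) (u : V h) :
    (Pi.single i 1 + Pi.single j 1 : V h) ⬝ᵥ u = u i + u j := by
  rw [add_dotProduct]
  simp

lemma dot_pair' {h : ℕ} (i j : Fin h) (u : V h) :
    u ⬝ᵥ (Pi.single i 1 + Pi.single j 1 : V h) = u i + u j := by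
  rw [dotProduct_add]
  simp

/-- Four times the number of winning pairs is at most `N²` plus the number of pairs `(u,v)` cut
on both sides. -/
lemma four_wins_le {h : ℕ} (F G b : V h → Fin h)
    (hb : ∀ u, G (u + one h) ≠ G u → b u = G (u + one h)) :
    4 * ∑ u, ∑ v, wins F G u v ≤ Fintype.card (V h) * Fintype.card (V h)
      + ∑ u, ∑ v, (if (Pi.single (F v) 1 + Pi.single (F (v + one h)) 1 : V h) ⬝ᵥ u ≠ 0 ∧
          v ⬝ᵥ (Pi.single (G u) 1 + Pi.single (b u) 1 : V h) ≠ 0 then 1 else 0) := by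
  have s1 : ∑ u, ∑ v, wins F G (u + one h) v = ∑ u, ∑ v, wins F G u v :=
    Equiv.sum_comp (Equiv.addRight (one h)) (fun u => ∑ v, wins F G u v)
  have s2 : ∑ u, ∑ v, wins F G u (v + one h) = ∑ u, ∑ v, wins F G u v := by
    apply Finset.sum_congr rfl
    intro u _
    exact Equiv.sum_comp (Equiv.addRight (one h)) (fun v => wins F G u v)
  have s3 : ∑ u, ∑ v, wins F G (u + one h) (v + one h) = ∑ u, ∑ v, wins F G u v := by
    rw [← s2]
    exact Equiv.sum_comp (Equiv.addRight (one h)) (fun u => ∑ v, wins F G u (v + one h))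
  have h1 : 4 * ∑ u, ∑ v, wins F G u v = ∑ u, ∑ v, (wins F G u v + wins F G (u + one h) v
      + wins F G u (v + one h) + wins F G (u + one h) (v + one h)) := by
    simp only [Finset.sum_add_distrib]
    rw [s1, s2, s3]
    ring
  have h2 : Fintype.card (V h) * Fintype.card (V h) = ∑ _u : V h, ∑ _v : V h, 1 := by
    simp [Finset.sum_const, Finset.card_univ, smul_eq_mul]
  rw [h1, h2, ← Finset.sum_add_distrib]
  apply Finset.sum_le_sum
  intro u _
  rw [← Finset.sum_add_distrib]
  apply Finset.sum_le_sum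
  intro v _
  rw [dot_pair, dot_pair']
  have h3 := pointwise (u (F v)) (u (F (v + one h))) (v (G u)) (v (G (u + one h)))
  unfold wins
  simp only [Pi.add_apply]
  have o1 : ∀ i, one h i = 1 := fun _ => rfl
  simp only [o1]
  refine le_trans h3 ?_
  apply Nat.add_le_add_left
  by_cases hG : G (u + one h) = G u
  · rw [hG]
    have : v (G u) + v (G u) = 0 := by
      generalize v (G u) = a
      revert a
      decide
    rw [this]
    simp
  · rw [hb u hG]

theorem hat_core {h : ℕ} (hh : 2 ≤ h) (F G : V h → Fin h) :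
    64 * ∑ u, ∑ v, wins F G u v ≤ 23 * (Fintype.card (V h) * Fintype.card (V h)) := by
  classical
  have : Nontrivial (Fin h) := Fin.nontrivial_iff_two_le.mpr hh
  have hex : ∀ i : Fin h, ∃ j : Fin h, j ≠ i := fun i => exists_ne i
  choose σ hσ using hex
  set b : V h → Fin h := fun u => if G (u + one h) = G u then σ (G u) else G (u + one h) with hbdef
  have hb : ∀ u, G (u + one h) ≠ G u → b u = G (u + one h) := by
    intro u hu
    simp only [hbdef]
    rw [if_neg hu]
  have hne : ∀ u, G u ≠ b u := by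
    intro u
    simp only [hbdef]
    split_ifs with h1
    · exact (hσ _).symm
    · exact fun h2 => h1 h2.symm
  set e : V h → V h := fun u => Pi.single (G u) 1 + Pi.single (b u) 1 with he
  set y : V h → V h := fun v => Pi.single (F v) 1 + Pi.single (F (v + one h)) 1 with hy
  have hpair : ∀ u, IsPair (e u) := fun u => ⟨G u, b u, hne u, rfl⟩
  have h1 := four_wins_le F G b hb
  have h2 := Q0 e hpair y
  set N := Fintype.card (V h) with hN
  set Q := ∑ u, ∑ v, (if (Pi.single (F v) 1 + Pi.single (F (v + one h)) 1 : V h) ⬝ᵥ u ≠ 0 ∧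
          v ⬝ᵥ (Pi.single (G u) 1 + Pi.single (b u) 1 : V h) ≠ 0 then 1 else 0) with hQ
  have h3 : 2 * Q + ∑ v, D e v (y v) = ∑ v, wt (fun u => y v ⬝ᵥ u)
      + ∑ u, wt (fun v => v ⬝ᵥ e u) := by
    have e1 : ∑ v, D e v (y v) = ∑ u, ∑ v, (if E e v (y v) u ≠ 0 then 1 else 0) := by
      simp only [D, wt_eq_sum]
      rw [Finset.sum_comm]
    have e2 : ∑ v, wt (fun u => y v ⬝ᵥ u) = ∑ u, ∑ v, (if y v ⬝ᵥ u ≠ 0 then 1 else 0) := by
      simp only [wt_eq_sum]
      rw [Finset.sum_comm]
    have e3 : ∑ u, wt (fun v => v ⬝ᵥ e u) = ∑ u, ∑ v, (if v ⬝ᵥ e u ≠ 0 then 1 else 0) := by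
      simp only [wt_eq_sum]
    rw [e1, e2, e3, hQ, Finset.mul_sum, ← Finset.sum_add_distrib, ← Finset.sum_add_distrib]
    apply Finset.sum_congr rfl
    intro u _
    rw [Finset.mul_sum, ← Finset.sum_add_distrib, ← Finset.sum_add_distrib]
    apply Finset.sum_congr rfl
    intro v _
    exact pointwise2 (y v ⬝ᵥ u) (v ⬝ᵥ e u)
  have h4 : 2 * ∑ v, wt (fun u => y v ⬝ᵥ u) ≤ N * N := by
    rw [Finset.mul_sum]
    have : ∑ v, 2 * wt (fun u => y v ⬝ᵥ u) ≤ ∑ _v : V h, N := by
      apply Finset.sum_le_sum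
      intro v _
      exact two_mul_wt_additive_le _ (fun a b => dotProduct_add _ _ _)
    refine this.trans ?_
    rw [Finset.sum_const, Finset.card_univ, smul_eq_mul]
  have h5 : 2 * ∑ u, wt (fun v => v ⬝ᵥ e u) ≤ N * N := by
    rw [Finset.mul_sum]
    have : ∑ u, 2 * wt (fun v => v ⬝ᵥ e u) ≤ ∑ _u : V h, N := by
      apply Finset.sum_le_sum
      intro u _
      exact two_mul_wt_additive_le _ (fun a b => add_dotProduct _ _ _)
    refine this.trans ?_
    rw [Finset.sum_const, Finset.card_univ, smul_eq_mul]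
  omega

/-- `Bool` and `ZMod 2` -/
def bz : Bool ≃ ZMod 2 where
  toFun b := if b then 1 else 0
  invFun a := decide (a ≠ 0)
  left_inv := by decide
  right_inv := by decide

/-- stacks as vectors -/
def BV (h : ℕ) : (Fin h → Bool) ≃ V h := Equiv.arrowCongr (Equiv.refl _) bz

lemma card_wins {h : ℕ} (f g : (Fin h → Bool) → Fin h) :
    (Finset.univ.filter (fun p : (Fin h → Bool) × (Fin h → Bool) =>
          p.1 (f p.2) = true ∧ p.2 (g p.1) = true)).card
      = ∑ u, ∑ v, wins (fun v => f ((BV h).symm v)) (fun u => g ((BV h).symm u)) u v := by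
  rw [Finset.card_filter, Fintype.sum_prod_type]
  rw [← Equiv.sum_comp (BV h)]
  apply Finset.sum_congr rfl
  intro x _
  rw [← Equiv.sum_comp (BV h)]
  apply Finset.sum_congr rfl
  intro y _
  unfold wins
  simp only [Equiv.symm_apply_apply]
  have h1 : ∀ (z : Fin h → Bool) (i : Fin h), (BV h z) i ≠ 0 ↔ z i = true := by
    intro z i
    have : (BV h z) i = bz (z i) := rfl
    rw [this]
    generalize z i = b
    revert b
    decide
  simp only [h1]

theorem hat_bound (h : ℕ) (f g : (Fin h → Bool) → Fin h) :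
    64 * (Finset.univ.filter (fun p : (Fin h → Bool) × (Fin h → Bool) =>
          p.1 (f p.2) = true ∧ p.2 (g p.1) = true)).card ≤ 23 * 4 ^ h := by
  rcases h with _ | h
  · exact (f (fun _ => true)).elim0
  rcases h with _ | h
  · have hf : f = fun _ => 0 := by
      funext x
      apply Fin.ext
      have := (f x).isLt
      have := (g x).isLt
      simp
    have hg : g = fun _ => 0 := by
      funext x
      apply Fin.ext
      have := (f x).isLt
      have := (g x).isLt
      simp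
    subst hf hg
    decide
  · rw [card_wins]
    refine (hat_core (by omega) _ _).trans ?_
    have : Fintype.card (V (h + 1 + 1)) = 2 ^ (h + 1 + 1) := by
      simp [V, ZMod.card]
    rw [this, ← pow_add, ← two_mul, pow_mul]
    norm_num

end Pool.H42.Hat
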