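import Pool.Agent.H42.Hat.Near

set_option autoImplicit false

namespace Pool.H42.Hat

open Finset

/-- version of `four_wins_le` with repaired pairs on both sides -/
lemma four_wins_le' {h : ℕ} (F G b c : V h → Fin h)
    (hb : ∀ u, G (u + one h) ≠ G u → b u = G (u + one h))
    (hc : ∀ v, F (v + one h) ≠ F v → c v = F (v + one h)) :
    4 * ∑ u, ∑ v, wins F G u v ≤ Fintype.card (V h) * Fintype.card (V h)
      + ∑ u, ∑ v, (if (Pi.single (F v) 1 + Pi.single (c v) 1 : V h) ⬝ᵥ u ≠ 0 ∧
          v ⬝ᵥ (Pi.single (G u) 1 + Pi.single (b u) 1 : V h) ≠ 0 then 1 else 0) := by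
  refine (four_wins_le F G b hb).trans ?_
  apply Nat.add_le_add_left
  apply Finset.sum_le_sum
  intro u _
  apply Finset.sum_le_sum
  intro v _
  by_cases hF : F (v + one h) = F v
  · rw [hF]
    have : (Pi.single (F v) 1 + Pi.single (F v) 1 : V h) ⬝ᵥ u = 0 := by
      rw [add_self_V, zero_dotProduct]
    rw [this]
    simp
  · rw [hc v hF]

/-- If the edge map of `G` agrees with a linear map on at least `5/8` of the stacks, the winning
probability is at most `45/128`. -/
theorem near_core {h : ℕ} (hh : 2 ≤ h) (F G : V h → Fin h) (M : Matrix (Fin h) (Fin h) (ZMod 2))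
    (hM : 5 * Fintype.card (V h) ≤ 8 * (univ.filter fun u : V h => G u ≠ G (u + one h) ∧
      M.mulVec u = Pi.single (G u) 1 + Pi.single (G (u + one h)) 1).card) :
    128 * ∑ u, ∑ v, wins F G u v ≤ 45 * (Fintype.card (V h) * Fintype.card (V h)) := by
  classical
  have : Nontrivial (Fin h) := Fin.nontrivial_iff_two_le.mpr hh
  have hex : ∀ i : Fin h, ∃ j : Fin h, j ≠ i := fun i => exists_ne i
  choose σ hσ using hex
  set b : V h → Fin h := fun u => if G (u + one h) = G u then σ (G u) else G (u + one h) with hbdef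
  set c : V h → Fin h := fun v => if F (v + one h) = F v then σ (F v) else F (v + one h) with hcdef
  have hb : ∀ u, G (u + one h) ≠ G u → b u = G (u + one h) := by
    intro u hu
    simp only [hbdef]
    rw [if_neg hu]
  have hc : ∀ u, F (u + one h) ≠ F u → c u = F (u + one h) := by
    intro u hu
    simp only [hcdef]
    rw [if_neg hu]
  have hne : ∀ u, G u ≠ b u := by
    intro u
    simp only [hbdef]
    split_ifs with h1
    · exact (hσ _).symm
    · exact fun h2 => h1 h2.symm
  have hne' : ∀ u, F u ≠ c u := by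
    intro u
    simp only [hcdef]
    split_ifs with h1
    · exact (hσ _).symm
    · exact fun h2 => h1 h2.symm
  set e : V h → V h := fun u => Pi.single (G u) 1 + Pi.single (b u) 1 with he
  set y : V h → V h := fun v => Pi.single (F v) 1 + Pi.single (c v) 1 with hy
  have hpair : ∀ u, IsPair (e u) := fun u => ⟨G u, b u, hne u, rfl⟩
  have hpair' : ∀ u, IsPair (y u) := fun u => ⟨F u, c u, hne' u, rfl⟩
  have h1 := four_wins_le' F G b c hb hc
  have hM' : 5 * Fintype.card (V h) ≤ 8 * (univ.filter fun u => e u = M.mulVec u).card := by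
    refine hM.trans ?_
    apply Nat.mul_le_mul_left
    apply Finset.card_le_card
    intro u hu
    simp only [mem_filter, mem_univ, true_and] at hu ⊢
    rw [hu.2]
    simp only [he]
    rw [hb u (fun h2 => hu.1 h2.symm)]
  have h2 := near_linear e y hpair hpair' M hM'
  set N := Fintype.card (V h) with hN
  set Q := ∑ u, ∑ v, (if (Pi.single (F v) 1 + Pi.single (c v) 1 : V h) ⬝ᵥ u ≠ 0 ∧
          v ⬝ᵥ (Pi.single (G u) 1 + Pi.single (b u) 1 : V h) ≠ 0 then 1 else 0) with hQ
  have h3 : 2 * Q + ∑ v, D e v (y v) = ∑ v, wt (fun u => y v ⬝ᵥ u)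
      + ∑ u, wt (fun v => v ⬝ᵥ e u) := by
    have e1 : ∑ v, D e v (y v) = ∑ u, ∑ v, (if E e v (y v) u ≠ 0 then 1 else 0) := by
      simp only [D, wt_eq_sum]
      rw [Finset.sum_comm]
    have e2 : ∑ v, wt (fun u => y v ⬝ᵥ u) = ∑ u, ∑ v, (if y v ⬝ᵥ u ≠ 0 then 1 else 0) := by
      simp only [wt_eq_sum]
      rw [Finset.sum_comm]
    have e3 : ∑ u, wt (fun v => v ⬝ᵥ e u) = ∑ u, ∑ v, (if v ⬝ᵥ e u ≠ 0 then 1 else 0) := by
      simp only [wt_eq_sum]
    rw [e1, e2, e3, hQ, Finset.mul_sum, ← Finset.sum_add_distrib, ← Finset.sum_add_distrib]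
    apply Finset.sum_congr rfl
    intro u _
    rw [Finset.mul_sum, ← Finset.sum_add_distrib, ← Finset.sum_add_distrib]
    apply Finset.sum_congr rfl
    intro v _
    exact pointwise2 (y v ⬝ᵥ u) (v ⬝ᵥ e u)
  have h4 : 2 * ∑ v, wt (fun u => y v ⬝ᵥ u) ≤ N * N := by
    rw [Finset.mul_sum]
    have : ∑ v, 2 * wt (fun u => y v ⬝ᵥ u) ≤ ∑ _v : V h, N := by
      apply Finset.sum_le_sum
      intro v _
      exact two_mul_wt_additive_le _ (fun a b => dotProduct_add _ _ _)
    refine this.trans ?_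
    rw [Finset.sum_const, Finset.card_univ, smul_eq_mul]
  have h5 : 2 * ∑ u, wt (fun v => v ⬝ᵥ e u) ≤ N * N := by
    rw [Finset.mul_sum]
    have : ∑ u, 2 * wt (fun v => v ⬝ᵥ e u) ≤ ∑ _u : V h, N := by
      apply Finset.sum_le_sum
      intro u _
      exact two_mul_wt_additive_le _ (fun a b => add_dotProduct _ _ _)
    refine this.trans ?_
    rw [Finset.sum_const, Finset.card_univ, smul_eq_mul]
  omega

lemma wins_swap {h : ℕ} (F G : V h → Fin h) :
    ∑ u, ∑ v, wins F G u v = ∑ u, ∑ v, wins G F u v := by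
  rw [Finset.sum_comm]
  apply Finset.sum_congr rfl
  intro u _
  apply Finset.sum_congr rfl
  intro v _
  unfold wins
  simp only [and_comm]

end Pool.H42.Hat
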