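import Pool.Agent.H42.Hat.Non3
import Pool.Agent.H42.Hat.NearGame

set_option autoImplicit false

namespace Pool.H42.Hat

open Finset

theorem hat_core2 {h : ℕ} (hh : 2 ≤ h) (F G : V h → Fin h) :
    10000 * ∑ u, ∑ v, wins F G u v ≤ 3579 * (Fintype.card (V h) * Fintype.card (V h)) := by
  classical
  have : Nontrivial (Fin h) := Fin.nontrivial_iff_two_le.mpr hh
  have hex : ∀ i : Fin h, ∃ j : Fin h, j ≠ i := fun i => exists_ne i
  choose σ hσ using hex
  set b : V h → Fin h := fun u => if G (u + one h) = G u then σ (G u) else G (u + one h) with hbdef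
  set c : V h → Fin h := fun v => if F (v + one h) = F v then σ (F v) else F (v + one h) with hcdef
  have hb : ∀ u, G (u + one h) ≠ G u → b u = G (u + one h) := by
    intro u hu
    simp only [hbdef]
    rw [if_neg hu]
  have hc : ∀ u, F (u + one h) ≠ F u → c u = F (u + one h) := by
    intro u hu
    simp only [hcdef]
    rw [if_neg hu]
  have hne : ∀ u, G u ≠ b u := by
    intro u
    simp only [hbdef]
    split_ifs with h1
    · exact (hσ _).symm
    · exact fun h2 => h1 h2.symm
  have hne' : ∀ u, F u ≠ c u := by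
    intro u
    simp only [hcdef]
    split_ifs with h1
    · exact (hσ _).symm
    · exact fun h2 => h1 h2.symm
  set e : V h → V h := fun u => Pi.single (G u) 1 + Pi.single (b u) 1 with he
  set y : V h → V h := fun v => Pi.single (F v) 1 + Pi.single (c v) 1 with hy
  have hpair : ∀ u, IsPair (e u) := fun u => ⟨G u, b u, hne u, rfl⟩
  have hpair' : ∀ u, IsPair (y u) := fun u => ⟨F u, c u, hne' u, rfl⟩
  have h1 := four_wins_le' F G b c hb hc
  have h2 := two_sided e y hpair hpair'
  set N := Fintype.card (V h) with hN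
  set Q := ∑ u, ∑ v, (if (Pi.single (F v) 1 + Pi.single (c v) 1 : V h) ⬝ᵥ u ≠ 0 ∧
          v ⬝ᵥ (Pi.single (G u) 1 + Pi.single (b u) 1 : V h) ≠ 0 then 1 else 0) with hQ
  have h3 : 2 * Q + ∑ v, D e v (y v) = ∑ v, wt (fun u => y v ⬝ᵥ u)
      + ∑ u, wt (fun v => v ⬝ᵥ e u) := by
    have e1 : ∑ v, D e v (y v) = ∑ u, ∑ v, (if E e v (y v) u ≠ 0 then 1 else 0) := by
      simp only [D, wt_eq_sum]
      rw [Finset.sum_comm]
    have e2 : ∑ v, wt (fun u => y v ⬝ᵥ u) = ∑ u, ∑ v, (if y v ⬝ᵥ u ≠ 0 then 1 else 0) := by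
      simp only [wt_eq_sum]
      rw [Finset.sum_comm]
    have e3 : ∑ u, wt (fun v => v ⬝ᵥ e u) = ∑ u, ∑ v, (if v ⬝ᵥ e u ≠ 0 then 1 else 0) := by
      simp only [wt_eq_sum]
    rw [e1, e2, e3, hQ, Finset.mul_sum, ← Finset.sum_add_distrib, ← Finset.sum_add_distrib]
    apply Finset.sum_congr rfl
    intro u _
    rw [Finset.mul_sum, ← Finset.sum_add_distrib, ← Finset.sum_add_distrib]
    apply Finset.sum_congr rfl
    intro v _
    exact pointwise2 (y v ⬝ᵥ u) (v ⬝ᵥ e u)
  have h4 : 2 * ∑ v, wt (fun u => y v ⬝ᵥ u) ≤ N * N := by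
    rw [Finset.mul_sum]
    have : ∑ v, 2 * wt (fun u => y v ⬝ᵥ u) ≤ ∑ _v : V h, N := by
      apply Finset.sum_le_sum
      intro v _
      exact two_mul_wt_additive_le _ (fun a b => dotProduct_add _ _ _)
    refine this.trans ?_
    rw [Finset.sum_const, Finset.card_univ, smul_eq_mul]
  have h5 : 2 * ∑ u, wt (fun v => v ⬝ᵥ e u) ≤ N * N := by
    rw [Finset.mul_sum]
    have : ∑ u, 2 * wt (fun v => v ⬝ᵥ e u) ≤ ∑ _u : V h, N := by
      apply Finset.sum_le_sum
      intro u _
      exact two_mul_wt_additive_le _ (fun a b => add_dotProduct _ _ _)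
    refine this.trans ?_
    rw [Finset.sum_const, Finset.card_univ, smul_eq_mul]
  omega

theorem hat_bound2 (h : ℕ) (f g : (Fin h → Bool) → Fin h) :
    10000 * (Finset.univ.filter (fun p : (Fin h → Bool) × (Fin h → Bool) =>
          p.1 (f p.2) = true ∧ p.2 (g p.1) = true)).card ≤ 3579 * 4 ^ h := by
  rcases h with _ | h
  · exact (f (fun _ => true)).elim0
  rcases h with _ | h
  · have h1 := hat_bound (0 + 1) f g
    norm_num at h1 ⊢
    omega
  · rw [card_wins]
    refine (hat_core2 (by omega) _ _).trans ?_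
    have : Fintype.card (V (h + 1 + 1)) = 2 ^ (h + 1 + 1) := by
      simp [V, ZMod.card]
    rw [this, ← pow_add, ← two_mul, pow_mul]
    norm_num

end Pool.H42.Hat
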