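import Pool.Agent.H42.Hat.Game2

set_option autoImplicit false

namespace Pool.H42.Hat

open Finset MeasureTheory ENNReal

/-- the fair coin -/
noncomputable def coin : Measure Bool := (PMF.uniformOfFintype Bool).toMeasure

instance : IsProbabilityMeasure coin := by
  unfold coin
  infer_instance

/-- infinite stacks -/
abbrev St := ℕ → Bool

/-- law of a random stack -/
noncomputable def stk : Measure St := Measure.infinitePi fun _ : ℕ => coin

instance : IsProbabilityMeasure stk := by
  unfold stk
  infer_instance

lemma coin_map_xor (a : Bool) : coin.map (fun b => xor a b) = coin := by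
  unfold coin
  rw [PMF.toMeasure_map _ _ (measurable_of_finite _)]
  congr 1
  ext b
  rw [PMF.map_apply]
  simp only [PMF.uniformOfFintype_apply]
  rw [tsum_eq_single (xor a b)]
  · simp
  · intro b' hb'
    rw [if_neg]
    intro h
    apply hb'
    rw [h]
    simp

/-- flip the first `H` hats according to `a` -/
def flip (H : ℕ) (a : Fin H → Bool) (x : St) : St :=
  fun i => xor (if h : i < H then a ⟨i, h⟩ else false) (x i)

lemma measurable_flip (H : ℕ) (a : Fin H → Bool) : Measurable (flip H a) := by
  unfold flip
  rw [measurable_pi_iff]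
  intro i
  exact (measurable_of_finite
    (fun b : Bool => xor (if h : i < H then a ⟨i, h⟩ else false) b)).comp
      (measurable_pi_apply (X := fun _ : ℕ => Bool) i)

lemma flip_map (H : ℕ) (a : Fin H → Bool) : stk.map (flip H a) = stk := by
  unfold stk
  have h1 := Measure.infinitePi_map_pi (μ := fun _ : ℕ => coin)
    (f := fun (i : ℕ) (b : Bool) => xor (if h : i < H then a ⟨i, h⟩ else false) b)
    (fun i => measurable_of_finite _)
  have h2 : (fun (x : ℕ → Bool) i => xor (if h : i < H then a ⟨i, h⟩ else false) (x i))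
      = flip H a := rfl
  rw [h2] at h1
  rw [h1]
  congr 1
  funext i
  exact coin_map_xor _

lemma flip_mp (H : ℕ) (a : Fin H → Bool) : MeasurePreserving (flip H a) stk stk :=
  ⟨measurable_flip H a, flip_map H a⟩

/-- event that the team wins -/
def winSet (f g : St → ℕ) : Set (St × St) := {p | p.1 (f p.2) = true ∧ p.2 (g p.1) = true}

lemma measurableSet_winSet {f g : St → ℕ} (hf : Measurable f) (hg : Measurable g) :
    MeasurableSet (winSet f g) := by
  have h1 : winSet f g = ⋃ i : ℕ, ⋃ j : ℕ,
      ({p : St × St | f p.2 = i} ∩ {p : St × St | g p.1 = j}) ∩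
        ({p : St × St | p.1 i = true} ∩ {p : St × St | p.2 j = true}) := by
    ext p
    simp only [winSet, Set.mem_ofPred_eq, Set.mem_iUnion, Set.mem_inter_iff]
    constructor
    · rintro ⟨h1, h2⟩
      exact ⟨f p.2, g p.1, ⟨rfl, rfl⟩, h1, h2⟩
    · rintro ⟨i, j, ⟨rfl, rfl⟩, h1, h2⟩
      exact ⟨h1, h2⟩
  rw [h1]
  refine MeasurableSet.iUnion fun i => MeasurableSet.iUnion fun j => ?_
  refine MeasurableSet.inter (MeasurableSet.inter ?_ ?_) (MeasurableSet.inter ?_ ?_)
  · exact (hf.comp measurable_snd) (measurableSet_singleton i)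
  · exact (hg.comp measurable_fst) (measurableSet_singleton j)
  · have h : Measurable (fun p : St × St => p.1 i) :=
      (measurable_pi_apply (X := fun _ : ℕ => Bool) i).comp measurable_fst
    exact h (measurableSet_singleton true)
  · have h : Measurable (fun p : St × St => p.2 j) :=
      (measurable_pi_apply (X := fun _ : ℕ => Bool) j).comp measurable_snd
    exact h (measurableSet_singleton true)

/-- event that one of the players names a position `≥ H` -/
def farSet (f g : St → ℕ) (H : ℕ) : Set (St × St) := {p | H ≤ f p.2 ∨ H ≤ g p.1}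

open Classical in
/-- the pointwise finite bound -/
lemma count_le (f g : St → ℕ) (H : ℕ) (hH : 0 < H) (x y : St) :
    10000 * (univ.filter fun q : (Fin H → Bool) × (Fin H → Bool) =>
      (flip H q.1 x, flip H q.2 y) ∈ winSet f g \ farSet f g H).card ≤ 3579 * 4 ^ H := by
  classical
  -- finite strategies
  let jn : (Fin H → Bool) → St → St := fun c z i => if h : i < H then c ⟨i, h⟩ else z i
  let f' : (Fin H → Bool) → Fin H := fun d =>
    if h : f (jn d y) < H then ⟨f (jn d y), h⟩ else ⟨0, hH⟩
  let g' : (Fin H → Bool) → Fin H := fun c =>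
    if h : g (jn c x) < H then ⟨g (jn c x), h⟩ else ⟨0, hH⟩
  refine le_trans ?_ (hat_bound2 H f' g')
  apply Nat.mul_le_mul_left
  have hflip : ∀ (a : Fin H → Bool) (z : St), flip H a z = jn (fun i => xor (a i) (z i)) z := by
    intro a z
    funext i
    simp only [flip, jn]
    split_ifs with h
    · rfl
    · simp
  apply Finset.card_le_card_of_injOn
    (fun q => ((fun i : Fin H => xor (q.1 i) (x i)), (fun i : Fin H => xor (q.2 i) (y i))))
  · intro q hq
    simp only [Finset.coe_filter, Finset.mem_univ, true_and, Set.mem_ofPred_eq] at hq ⊢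
    obtain ⟨hw, hfar⟩ := hq
    rw [hflip, hflip] at hw hfar
    simp only [winSet, Set.mem_ofPred_eq] at hw
    simp only [farSet, Set.mem_ofPred_eq, not_or, not_le] at hfar
    obtain ⟨h1, h2⟩ := hw
    obtain ⟨h3, h4⟩ := hfar
    refine ⟨?_, ?_⟩
    · simp only [f', dif_pos h3]
      simpa only [jn, dif_pos h3] using h1
    · simp only [g', dif_pos h4]
      simpa only [jn, dif_pos h4] using h2
  · intro q _ q' _ hqq
    simp only [Prod.mk.injEq] at hqq
    obtain ⟨h1, h2⟩ := hqq
    apply Prod.ext
    · funext i
      have := congrFun h1 i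
      simpa using this
    · funext i
      have := congrFun h2 i
      simpa using this

lemma measurableSet_farSet {f g : St → ℕ} (hf : Measurable f) (hg : Measurable g) (H : ℕ) :
    MeasurableSet (farSet f g H) := by
  have h1 : farSet f g H = ((fun p : St × St => f p.2) ⁻¹' Set.Ici H) ∪
      ((fun p : St × St => g p.1) ⁻¹' Set.Ici H) := by
    ext p
    simp [farSet]
  rw [h1]
  exact ((hf.comp measurable_snd) measurableSet_Ici).union
    ((hg.comp measurable_fst) measurableSet_Ici)

lemma near_bound {f g : St → ℕ} (hf : Measurable f) (hg : Measurable g) (H : ℕ) (hH : 0 < H) :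
    10000 * (stk.prod stk) (winSet f g \ farSet f g H) ≤ 3579 := by
  classical
  set S := winSet f g \ farSet f g H with hS
  have hSm : MeasurableSet S := (measurableSet_winSet hf hg).diff (measurableSet_farSet hf hg H)
  set T : (Fin H → Bool) × (Fin H → Bool) → St × St → St × St :=
    fun q => Prod.map (flip H q.1) (flip H q.2) with hT
  have hTm : ∀ q, MeasurePreserving (T q) (stk.prod stk) (stk.prod stk) := fun q =>
    (flip_mp H q.1).prod (flip_mp H q.2)
  have h1 : ∀ q, ∫⁻ p, S.indicator 1 (T q p) ∂(stk.prod stk) = (stk.prod stk) S := by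
    intro q
    rw [← lintegral_indicator_one hSm]
    exact (hTm q).lintegral_comp (measurable_one.indicator hSm)
  have h2 : ∑ q : (Fin H → Bool) × (Fin H → Bool),
      ∫⁻ p, S.indicator 1 (T q p) ∂(stk.prod stk) = (4 : ℝ≥0∞) ^ H * (stk.prod stk) S := by
    rw [Finset.sum_congr rfl fun q _ => h1 q, Finset.sum_const, nsmul_eq_mul, Finset.card_univ]
    congr 1
    rw [Fintype.card_prod, Fintype.card_fun, Fintype.card_fin, Fintype.card_bool, ← mul_pow]
    norm_num
  have h3 : ∫⁻ p, 10000 * ∑ q : (Fin H → Bool) × (Fin H → Bool), S.indicator 1 (T q p)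
      ∂(stk.prod stk) = 10000 * ((4 : ℝ≥0∞) ^ H * (stk.prod stk) S) := by
    rw [lintegral_const_mul, lintegral_finsetSum, h2]
    · intro q _
      exact (measurable_one.indicator hSm).comp (hTm q).measurable
    · exact Finset.measurable_fun_sum _ fun q _ =>
        (measurable_one.indicator hSm).comp (hTm q).measurable
  have h4 : ∀ p : St × St, (10000 : ℝ≥0∞) *
      ∑ q : (Fin H → Bool) × (Fin H → Bool), S.indicator (1 : St × St → ℝ≥0∞) (T q p)
        ≤ 3579 * 4 ^ H := by
    intro p
    have h5 := count_le f g H hH p.1 p.2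
    have h6 : ∑ q : (Fin H → Bool) × (Fin H → Bool), S.indicator (1 : St × St → ℝ≥0∞) (T q p)
        = (((univ.filter fun q : (Fin H → Bool) × (Fin H → Bool) =>
          (flip H q.1 p.1, flip H q.2 p.2) ∈ winSet f g \ farSet f g H).card : ℕ) : ℝ≥0∞) := by
      rw [Finset.card_filter, Nat.cast_sum]
      apply Finset.sum_congr rfl
      intro q _
      simp only [Set.indicator_apply, hT, Prod.map, hS, Pi.one_apply]
      split_ifs <;> simp
    rw [h6]
    exact_mod_cast h5
  have h7 : 10000 * ((4 : ℝ≥0∞) ^ H * (stk.prod stk) S) ≤ 3579 * 4 ^ H := by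
    rw [← h3]
    refine (lintegral_mono h4).trans ?_
    rw [lintegral_const, measure_univ, mul_one]
  have h8 : (4 : ℝ≥0∞) ^ H * (10000 * (stk.prod stk) S) ≤ 4 ^ H * 3579 := by
    rw [mul_left_comm, mul_comm _ (3579 : ℝ≥0∞)]
    exact h7
  have h9 : (4 : ℝ≥0∞) ^ H ≠ 0 := by positivity
  have h10 : (4 : ℝ≥0∞) ^ H ≠ ⊤ := by
    exact ENNReal.pow_ne_top (by norm_num)
  exact (ENNReal.mul_le_mul_iff_right h9 h10).mp h8

/-- the far event has vanishing probability -/
lemma far_tendsto {f g : St → ℕ} (hf : Measurable f) (hg : Measurable g) :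
    Filter.Tendsto (fun H => (stk.prod stk) (farSet f g H)) Filter.atTop (nhds 0) := by
  have h1 : (⋂ H, farSet f g H) = ∅ := by
    ext p
    simp only [Set.mem_iInter, Set.mem_empty_iff_false, iff_false, not_forall, farSet,
      Set.mem_ofPred_eq, not_or, not_le]
    exact ⟨f p.2 + g p.1 + 1, by omega, by omega⟩
  have h2 : Antitone (farSet f g) := by
    intro a b hab p hp
    simp only [farSet, Set.mem_ofPred_eq] at hp ⊢
    rcases hp with hp | hp
    · exact Or.inl (hab.trans hp)
    · exact Or.inr (hab.trans hp)
  have h3 := tendsto_measure_iInter_atTop (μ := stk.prod stk) (s := farSet f g)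
    (fun H => (measurableSet_farSet hf hg H).nullMeasurableSet) h2 ⟨0, measure_ne_top _ _⟩
  rw [h1, measure_empty] at h3
  exact h3

theorem hat_inf {f g : St → ℕ} (hf : Measurable f) (hg : Measurable g) :
    10000 * (stk.prod stk) (winSet f g) ≤ 3579 := by
  have h1 : Filter.Tendsto (fun H => (3579 : ℝ≥0∞) + 10000 * (stk.prod stk) (farSet f g H))
      Filter.atTop (nhds (3579 + 10000 * 0)) := by
    apply Filter.Tendsto.const_add
    exact ENNReal.Tendsto.const_mul (far_tendsto hf hg) (Or.inr (by norm_num))
  rw [mul_zero, add_zero] at h1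
  apply ge_of_tendsto h1
  filter_upwards [Filter.eventually_gt_atTop 0] with H hH
  calc 10000 * (stk.prod stk) (winSet f g)
      ≤ 10000 * ((stk.prod stk) (winSet f g \ farSet f g H)
          + (stk.prod stk) (farSet f g H)) := by
        gcongr
        refine (measure_mono ?_).trans (measure_union_le _ _)
        intro p hp
        by_cases h : p ∈ farSet f g H
        · exact Or.inr h
        · exact Or.inl ⟨hp, h⟩
    _ = 10000 * (stk.prod stk) (winSet f g \ farSet f g H)
          + 10000 * (stk.prod stk) (farSet f g H) := mul_add _ _ _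
    _ ≤ 3579 + 10000 * (stk.prod stk) (farSet f g H) := by
        gcongr
        exact near_bound hf hg H hH

end Pool.H42.Hat
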