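import Pool.Agent.H42.Hat.Game

set_option autoImplicit false

namespace Pool.H42.Hat

open Finset

/-- on the kernel of a nonzero additive function another additive function is nonzero on at most a
quarter of all points -/
lemma four_mul_card_le {G : Type*} [Fintype G] [AddCommGroup G] (φ ψ : G → ZMod 2)
    (hφ : ∀ a b, φ (a + b) = φ a + φ b) (hψ : ∀ a b, ψ (a + b) = ψ a + ψ b)
    (hne : ∃ a, ψ a ≠ 0) :
    4 * (univ.filter fun u => ψ u = 0 ∧ φ u ≠ 0).card ≤ Fintype.card G := by
  classical
  have h1 := two_mul_wt_additive ψ hψ hne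
  have h2 := two_mul_wt_additive_le φ hφ
  have h3 : 2 * wt (fun u => φ u + ψ u) ≤ Fintype.card G := by
    apply two_mul_wt_additive_le
    intro a b
    rw [hφ, hψ]
    ring
  have key : ∀ a b : ZMod 2, (2 * (if b = 0 ∧ a ≠ 0 then 1 else 0) + (if b ≠ 0 then 1 else 0) : ℕ)
      = (if a ≠ 0 then 1 else 0) + (if a + b ≠ 0 then 1 else 0) := by decide
  have h4 : 2 * (univ.filter fun u => ψ u = 0 ∧ φ u ≠ 0).card + wt ψ
      = wt φ + wt (fun u => φ u + ψ u) := by
    rw [Finset.card_filter, wt_eq_sum, wt_eq_sum, wt_eq_sum, Finset.mul_sum,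
      ← Finset.sum_add_distrib, ← Finset.sum_add_distrib]
    apply Finset.sum_congr rfl
    intro u _
    exact key (φ u) (ψ u)
  omega

/-- the bound `card_linear_le` inside the kernel of a nonzero linear form -/
lemma card_linear_ker_le {h : ℕ} (e : V h → V h) (he : ∀ u, IsPair (e u)) (z : V h → V h)
    (S : Finset (V h)) (hS : ∀ u ∈ S, ∀ v, E e v (z v) u = 0) (b : V h) (hb : b ≠ 0)
    (hSb : ∀ u ∈ S, b ⬝ᵥ u = 0) :
    8 * S.card ≤ 3 * Fintype.card (V h) := by
  classical
  rcases S.eq_empty_or_nonempty with rfl | ⟨u0, hu0⟩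
  · simp
  obtain ⟨i, j, hij, heu0⟩ := he u0
  set c : V h := Pi.single i 1 + Pi.single j 1 with hc
  have hψ : 4 * (univ.filter fun u : V h => b ⬝ᵥ u = 0 ∧ z c ⬝ᵥ u ≠ 0).card
      ≤ Fintype.card (V h) := by
    apply four_mul_card_le (fun u : V h => z c ⬝ᵥ u) (fun u : V h => b ⬝ᵥ u)
    · intro a b
      exact dotProduct_add _ _ _
    · intro a b
      exact dotProduct_add _ _ _
    · exact exists_dot_ne hb
  have hker : 2 * (univ.filter fun u : V h => b ⬝ᵥ u = 0).card = Fintype.card (V h) := by
    have h1 := two_mul_wt_additive (fun u : V h => b ⬝ᵥ u) (fun a b => dotProduct_add _ _ _)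
      (exists_dot_ne hb)
    have h2 := Finset.card_filter_add_card_filter_not (s := (univ : Finset (V h)))
      (fun u => b ⬝ᵥ u = 0)
    have h3 : wt (fun u : V h => b ⬝ᵥ u) = (univ.filter fun u : V h => ¬ b ⬝ᵥ u = 0).card := rfl
    rw [← h3, Finset.card_univ] at h2
    omega
  have key : ∀ u, u ∈ S → u + u0 ∈ S → z c ⬝ᵥ u ≠ 0 := by
    intro u hu hu'
    have hE : ∀ u ∈ S, ∀ v, v ⬝ᵥ e u = z v ⬝ᵥ u := by
      intro u hu v
      have := hS u hu v
      unfold E at this
      revert this
      generalize v ⬝ᵥ e u = a
      generalize z v ⬝ᵥ u = b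
      revert a b
      decide
    have h1 : e (u + u0) = e u + e u0 := by
      funext k
      have h2 := hE _ hu' (Pi.single k 1)
      rw [dotProduct_add, ← hE u hu, ← hE u0 hu0, ← dotProduct_add] at h2
      simpa using h2
    have h3 : e u i + e u j ≠ 0 := by
      apply pair_add hij (he u)
      rw [← hc, ← heu0, ← h1]
      exact he _
    rw [← hE u hu c, hc, add_dotProduct]
    simpa using h3
  set S' : Finset (V h) := S.image (fun u => u + u0) with hS'
  have hcard' : S'.card = S.card := by
    rw [hS']
    apply Finset.card_image_of_injective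
    intro a b hab
    exact add_right_cancel hab
  have hinter : (S ∩ S').card ≤ (univ.filter fun u : V h => b ⬝ᵥ u = 0 ∧ z c ⬝ᵥ u ≠ 0).card := by
    apply Finset.card_le_card
    intro u hu
    simp only [mem_inter, hS', mem_image, mem_filter, mem_univ, true_and] at hu ⊢
    obtain ⟨hu1, a, ha, hau⟩ := hu
    refine ⟨hSb u hu1, ?_⟩
    apply key u hu1
    have : u + u0 = a := by
      rw [← hau, add_assoc, add_self_V, add_zero]
    rw [this]
    exact ha
  have hunion : (S ∪ S').card ≤ (univ.filter fun u : V h => b ⬝ᵥ u = 0).card := by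
    apply Finset.card_le_card
    intro u hu
    simp only [mem_union, hS', mem_image, mem_filter, mem_univ, true_and] at hu ⊢
    rcases hu with hu | ⟨a, ha, hau⟩
    · exact hSb u hu
    · rw [← hau, dotProduct_add, hSb a ha, hSb u0 hu0, add_zero]
  have := Finset.card_union_add_card_inter S S'
  omega

/-- If a pair-valued `e` agrees with a linear map on at least `5/8` of the labels, then every
pair-valued `y` has error rate at least `3/16`. -/
theorem near_linear {h : ℕ} (e y : V h → V h) (he : ∀ u, IsPair (e u)) (hy : ∀ v, IsPair (y v))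
    (M : Matrix (Fin h) (Fin h) (ZMod 2))
    (hM : 5 * Fintype.card (V h) ≤ 8 * (univ.filter fun u => e u = M.mulVec u).card) :
    3 * (Fintype.card (V h) * Fintype.card (V h)) ≤ 16 * ∑ v, D e v (y v) := by
  classical
  set N := Fintype.card (V h) with hN
  set z : V h → V h := fun v => Matrix.vecMul v M with hz
  set S : Finset (V h) := univ.filter fun u => e u = M.mulVec u with hS
  have hzdot : ∀ v u : V h, z v ⬝ᵥ u = v ⬝ᵥ M.mulVec u := by
    intro v u
    rw [hz]
    exact (Matrix.dotProduct_mulVec v M u).symm
  have hE : ∀ v u, E e v (z v) u = v ⬝ᵥ (e u + M.mulVec u) := by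
    intro v u
    unfold E
    rw [hzdot, dotProduct_add]
  have hSE : ∀ u ∈ S, ∀ v, E e v (z v) u = 0 := by
    intro u hu v
    simp only [hS, mem_filter, mem_univ, true_and] at hu
    rw [hE, hu, add_self_V, dotProduct_zero]
  -- total error of `z`
  have hη : 2 * ∑ v, D e v (z v) = (N - S.card) * N := by
    have hswap : ∑ v, D e v (z v) = ∑ u, wt (fun v => E e v (z v) u) := by
      simp only [D, wt_eq_sum]
      rw [Finset.sum_comm]
    rw [hswap, Finset.mul_sum]
    have h1 : ∑ u, 2 * wt (fun v => E e v (z v) u)
        = ∑ u ∈ univ \ S, 2 * wt (fun v => E e v (z v) u) := by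
      symm
      apply Finset.sum_subset Finset.sdiff_subset
      intro u _ hu
      have hu' : u ∈ S := by
        by_contra hcon
        apply hu
        simp [hcon]
      have : wt (fun v => E e v (z v) u) = 0 := by
        unfold wt
        rw [Finset.card_eq_zero, Finset.filter_eq_empty_iff]
        intro v _
        simp [hSE u hu' v]
      rw [this, mul_zero]
    rw [h1]
    have h2 : ∑ u ∈ univ \ S, 2 * wt (fun v => E e v (z v) u) = ∑ u ∈ univ \ S, N := by
      apply Finset.sum_congr rfl
      intro u hu
      have hu' : u ∉ S := by simpa using hu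
      have hne : e u + M.mulVec u ≠ 0 := by
        intro h0
        apply hu'
        simp only [hS, mem_filter, mem_univ, true_and]
        have : e u + M.mulVec u + M.mulVec u = M.mulVec u := by rw [h0, zero_add]
        rw [add_assoc, add_self_V, add_zero] at this
        exact this
      apply two_mul_wt_additive
      · intro a b
        rw [hE, hE, hE, add_dotProduct]
      · obtain ⟨v, hv⟩ := exists_dot_ne hne
        refine ⟨v, ?_⟩
        rw [hE, dotProduct_comm]
        exact hv
    rw [h2, Finset.sum_const, smul_eq_mul, Finset.card_sdiff_of_subset (Finset.subset_univ S),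
      Finset.card_univ]
  -- vectors where `y` is not the transpose
  set T : Finset (V h) := univ.filter fun v => y v = z v with hT
  have hTcard : 4 * T.card ≤ 3 * N := by
    apply card_linear_le y hy (fun w => M.mulVec w)
    intro v hv w
    simp only [hT, mem_filter, mem_univ, true_and] at hv
    unfold E
    rw [hv, dotProduct_comm w (z v), hzdot, dotProduct_comm (M.mulVec w) v]
    generalize v ⬝ᵥ M.mulVec w = a
    revert a
    decide
  have hScardle : S.card ≤ N := Finset.card_le_univ _
  have hTcardle : T.card ≤ N := Finset.card_le_univ _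
  have hbad : ∀ v, v ∉ T → 4 * D e v (z v) + 8 * S.card ≤ 4 * D e v (y v) + 5 * N := by
    intro v hv
    set b := y v + z v with hb
    have hb0 : b ≠ 0 := by
      intro h0
      apply hv
      simp only [hT, mem_filter, mem_univ, true_and]
      have : y v + z v + z v = z v := by rw [← hb, h0, zero_add]
      rw [add_assoc, add_self_V, add_zero] at this
      exact this
    have hSb : 8 * (S.filter fun u => b ⬝ᵥ u = 0).card ≤ 3 * N := by
      apply card_linear_ker_le e he z _ _ b hb0
      · intro u hu
        exact (mem_filter.mp hu).2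
      · intro u hu
        exact hSE u (mem_filter.mp hu).1
    have hsplit : (S.filter fun u => b ⬝ᵥ u = 0).card + (S.filter fun u => ¬ b ⬝ᵥ u = 0).card
        = S.card := by
      convert Finset.card_filter_add_card_filter_not (s := S) (fun u => b ⬝ᵥ u = 0)
    have hwb := two_mul_wt_additive (fun u : V h => b ⬝ᵥ u) (fun a b => dotProduct_add _ _ _)
      (exists_dot_ne hb0)
    have hpt : wt (E e v (z v)) + 2 * (S.filter fun u => ¬ b ⬝ᵥ u = 0).card
        ≤ wt (E e v (y v)) + wt (fun u : V h => b ⬝ᵥ u) := by
      have h1 : (S.filter fun u => ¬ b ⬝ᵥ u = 0).card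
          = ∑ u, (if u ∈ S ∧ ¬ b ⬝ᵥ u = 0 then 1 else 0) := by
        rw [← Finset.card_filter]
        congr 1
        ext u
        simp
      rw [h1, wt_eq_sum, wt_eq_sum, wt_eq_sum, Finset.mul_sum, ← Finset.sum_add_distrib,
        ← Finset.sum_add_distrib]
      apply Finset.sum_le_sum
      intro u _
      have hEy : E e v (y v) u = E e v (z v) u + b ⬝ᵥ u := by
        unfold E
        rw [hb, add_dotProduct]
        have : z v ⬝ᵥ u + z v ⬝ᵥ u = 0 := by
          generalize z v ⬝ᵥ u = a
          revert a
          decide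
        linear_combination (-1 : ZMod 2) * this
      by_cases hu : u ∈ S
      · rw [hEy, hSE u hu v]
        generalize b ⬝ᵥ u = a
        simp only [hu, true_and]
        revert a
        decide
      · rw [hEy]
        generalize E e v (z v) u = a
        generalize b ⬝ᵥ u = c
        simp only [hu, false_and]
        revert a c
        decide
    have e1 : D e v (z v) = wt (E e v (z v)) := rfl
    have e2 : D e v (y v) = wt (E e v (y v)) := rfl
    omega
  have hgood : ∀ v, v ∈ T → D e v (z v) = D e v (y v) := by
    intro v hv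
    simp only [hT, mem_filter, mem_univ, true_and] at hv
    rw [hv]
  have hsum : 4 * ∑ v, D e v (z v) + (N - T.card) * (8 * S.card - 5 * N)
      ≤ 4 * ∑ v, D e v (y v) := by
    have h1 : (N - T.card) * (8 * S.card - 5 * N)
        = ∑ v, (if v ∈ T then 0 else 8 * S.card - 5 * N) := by
      rw [Finset.sum_ite, Finset.sum_const_zero, zero_add, Finset.sum_const, smul_eq_mul]
      congr 1
      have h2 := Finset.card_filter_add_card_filter_not (s := (univ : Finset (V h)))
        (fun v => v ∈ T)
      have h3 : (univ.filter fun v => v ∈ T) = T := by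
        ext v
        simp
      rw [h3, Finset.card_univ] at h2
      omega
    rw [h1, Finset.mul_sum, Finset.mul_sum, ← Finset.sum_add_distrib]
    apply Finset.sum_le_sum
    intro v _
    by_cases hv : v ∈ T
    · rw [if_pos hv, hgood v hv]
      omega
    · rw [if_neg hv]
      have := hbad v hv
      omega
  have hB : N ≤ 4 * (N - T.card) := by omega
  have h1 : N * (8 * S.card - 5 * N) ≤ 4 * ((N - T.card) * (8 * S.card - 5 * N)) := by
    calc N * (8 * S.card - 5 * N) ≤ (4 * (N - T.card)) * (8 * S.card - 5 * N) :=
          Nat.mul_le_mul_right _ hB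
      _ = _ := by ring
  have h2 : 3 * (N * N) = 8 * ((N - S.card) * N) + N * (8 * S.card - 5 * N) := by
    obtain ⟨k, hk⟩ := Nat.exists_eq_add_of_le hM
    obtain ⟨l, hl⟩ := Nat.exists_eq_add_of_le hScardle
    have h3 : 8 * S.card - 5 * N = k := by omega
    have h4 : N - S.card = l := by omega
    rw [h3, h4]
    have h5 : 3 * N = 8 * l + k := by omega
    calc 3 * (N * N) = (3 * N) * N := by ring
      _ = (8 * l + k) * N := by rw [h5]
      _ = _ := by ring
  omega

end Pool.H42.Hat
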