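import Mathlib

set_option autoImplicit false

namespace Pool.H42.Hat

open Finset

/-- the real-variable part: first and third moments of `r` and four averaged inequalities force
`T ≥ 171/625` -/
lemma real_part {ι : Type*} [Fintype ι] [DecidableEq ι] (W : Finset ι) (r : ι → ℝ) (t T N : ℝ)
    (hN : N = Fintype.card ι) (hNpos : 0 < N)
    (h0 : ∀ u, 0 ≤ r u) (h1 : ∀ u, r u ≤ 1) (ht0 : 0 < t) (ht1 : t ≤ 1)
    (hsum : ∑ u, r u = N / 2) (hodd : ∑ u, (r u - 1 / 2) ^ 3 ≤ 0)
    (hW : N / 6 ≤ W.card) (hw : ∑ u ∈ W, r u ≤ N / 4)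
    (hB : N / 4 + W.card - t * ∑ u ∈ W, r u ≤ T * (N + 2 * W.card))
    (hR1 : ∑ u, ((1 / 4) * (1 - r u) + (if u ∈ W then 1 - t * r u else t * r u) * r u) ≤ T * N)
    (hR2 : ∑ u, ((1 / 4) * (1 - r u) ^ 2
      + (if u ∈ W then 1 - t * r u else t * r u) * (2 * r u - r u ^ 2)) ≤ T * N) :
    171 / 625 ≤ T := by
  set w : ℝ := ∑ u ∈ W, r u with hwdef
  have hw0 : 0 ≤ w := Finset.sum_nonneg fun u _ => h0 u
  have hWsum : ∀ f : ι → ℝ, ∑ u, (if u ∈ W then f u else 0) = ∑ u ∈ W, f u := by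
    intro f
    rw [← Finset.sum_filter]
    congr 1
    ext u
    simp
  have hhalf : ∑ u, (r u - 1 / 2) = 0 := by
    rw [Finset.sum_sub_distrib, hsum, Finset.sum_const, Finset.card_univ, nsmul_eq_mul, ← hN]
    ring
  have hconst : ∀ c : ℝ, ∑ _u : ι, c = N * c := by
    intro c
    rw [Finset.sum_const, Finset.card_univ, nsmul_eq_mul, ← hN]
  -- inequality (iii)
  have hiii : N / 8 + w + t * (N / 4 - 3 / 2 * w) ≤ T * N := by
    refine le_trans ?_ hR1
    have h2 : ∑ u, ((1 / 4) * (1 - r u) + (if u ∈ W then r u else 0)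
        + t * (-2 * (r u - 1 / 2) ^ 3 + (r u - 1 / 2) + 1 / 4 - (if u ∈ W then 3 / 2 * r u else 0)))
        ≤ ∑ u, ((1 / 4) * (1 - r u) + (if u ∈ W then 1 - t * r u else t * r u) * r u) := by
      apply Finset.sum_le_sum
      intro u _
      have hr0 := h0 u
      have hr1 := h1 u
      by_cases hu : u ∈ W
      · simp only [hu, if_true]
        have h3 : 0 ≤ t * (r u * (r u - 1) ^ 2) :=
          mul_nonneg ht0.le (mul_nonneg hr0 (sq_nonneg _))
        nlinarith [h3]
      · simp only [hu, if_false]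
        have h3 : 0 ≤ t * (r u * (r u - 1 / 2) ^ 2) :=
          mul_nonneg ht0.le (mul_nonneg hr0 (sq_nonneg _))
        nlinarith [h3]
    refine le_trans ?_ h2
    have h4 : ∑ u, ((1 / 4) * (1 - r u) + (if u ∈ W then r u else 0)
        + t * (-2 * (r u - 1 / 2) ^ 3 + (r u - 1 / 2) + 1 / 4 - (if u ∈ W then 3 / 2 * r u else 0)))
        = (1 / 4) * (N * 1 - ∑ u, r u) + w
          + t * (-2 * ∑ u, (r u - 1 / 2) ^ 3 + ∑ u, (r u - 1 / 2) + N * (1 / 4) - 3 / 2 * w) := by
      rw [Finset.sum_add_distrib, Finset.sum_add_distrib, ← Finset.mul_sum, ← Finset.mul_sum,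
        Finset.sum_sub_distrib, Finset.sum_sub_distrib, Finset.sum_add_distrib,
        Finset.sum_add_distrib, ← Finset.mul_sum, hWsum, hWsum, hconst, hconst,
        ← Finset.mul_sum]
    rw [h4, hhalf, hsum]
    nlinarith [mul_nonneg ht0.le (neg_nonneg.mpr hodd)]
  -- inequality (ii)
  have hδ : N / 6 ≤ (W.card : ℝ) := hW
  by_contra hlt
  push Not at hlt
  have hii : N / 4 + W.card - t * w ≤ 171 / 625 * (N + 2 * W.card) := by
    refine hB.trans ?_
    apply mul_le_mul_of_nonneg_right hlt.le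
    positivity
  have hm : (1945 / 37500 : ℝ) * N ≤ t * w := by
    nlinarith
  have hiii' : N / 8 + w + t * (N / 4 - 3 / 2 * w) ≤ 171 / 625 * N := by
    refine hiii.trans ?_
    exact mul_le_mul_of_nonneg_right hlt.le hNpos.le
  by_cases ht : t < 2 / 3
  · -- multiply (iii) by `t`
    have h5 : t * (N / 8 + w + t * (N / 4 - 3 / 2 * w)) ≤ t * (171 / 625 * N) :=
      mul_le_mul_of_nonneg_left hiii' ht0.le
    have h6 : (1945 / 37500 : ℝ) * N * (1 - 3 / 2 * t) ≤ t * w * (1 - 3 / 2 * t) :=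
      mul_le_mul_of_nonneg_right hm (by linarith)
    have h7 : (1945 / 37500 : ℝ) * N * (1 - 3 / 2 * t) + t * N / 8 + t ^ 2 * N / 4
        ≤ t * (171 / 625 * N) := by nlinarith
    have h8 : (0 : ℝ) < (1945 / 37500 * (1 - 3 / 2 * t) + t / 8 + t ^ 2 / 4 - t * (171 / 625)) := by
      nlinarith [sq_nonneg (t - 0.4528)]
    have h9 : 0 < N * (1945 / 37500 * (1 - 3 / 2 * t) + t / 8 + t ^ 2 / 4 - t * (171 / 625)) :=
      mul_pos hNpos h8
    nlinarith
  · push Not at ht
    -- inequality (iv)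
    have hiv : N * (1 / 16 + 3 * t / 8) + (31 / 28 - 7 * t / 4) * w ≤ T * N := by
      refine le_trans ?_ hR2
      have h2 : ∑ u, (1 / 16 + 3 * t / 8 - (1 / 2 + 2 * t) * (r u - 1 / 2) ^ 3
          - (1 / 4 - 5 / 4 * t) * (r u - 1 / 2) + (if u ∈ W then (31 / 28 - 7 * t / 4) * r u else 0))
          ≤ ∑ u, ((1 / 4) * (1 - r u) ^ 2
      + (if u ∈ W then 1 - t * r u else t * r u) * (2 * r u - r u ^ 2)) := by
        apply Finset.sum_le_sum
        intro u _
        have hr0 := h0 u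
        have hr1 := h1 u
        by_cases hu : u ∈ W
        · simp only [hu, if_true]
          have h3 : 0 ≤ (1 / 2 + 3 * t) * r u ^ 2 - (3 / 2 + 5 * t) * r u + (1 + 2 * t) + 1 / 56 := by
            have h10 : 0 ≤ (2 * t - 1) * (r u - 13 / 14) ^ 2 :=
              mul_nonneg (by linarith) (sq_nonneg _)
            have h11 : 0 ≤ (1 - t) * (2 * (2 * (1 - r u) ^ 2 + 1 / 56)) :=
              mul_nonneg (by linarith) (by positivity)
            nlinarith [h10, h11]
          have h12 := mul_nonneg hr0 h3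
          nlinarith [h12]
        · simp only [hu, if_false]
          have h3 : 0 ≤ (1 / 2 + t) * (r u * (r u - 1 / 2) ^ 2) :=
            mul_nonneg (by linarith) (mul_nonneg hr0 (sq_nonneg _))
          nlinarith [h3]
      refine le_trans ?_ h2
      have h4 : ∑ u, (1 / 16 + 3 * t / 8 - (1 / 2 + 2 * t) * (r u - 1 / 2) ^ 3
          - (1 / 4 - 5 / 4 * t) * (r u - 1 / 2) + (if u ∈ W then (31 / 28 - 7 * t / 4) * r u else 0))
          = N * (1 / 16 + 3 * t / 8) - (1 / 2 + 2 * t) * ∑ u, (r u - 1 / 2) ^ 3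
            - (1 / 4 - 5 / 4 * t) * ∑ u, (r u - 1 / 2) + (31 / 28 - 7 * t / 4) * w := by
        rw [Finset.sum_add_distrib, Finset.sum_sub_distrib, Finset.sum_sub_distrib, hWsum,
          ← Finset.mul_sum, ← Finset.mul_sum, ← Finset.mul_sum, hconst]
      rw [h4, hhalf]
      have h13 : 0 ≤ (1 / 2 + 2 * t) * (-∑ u, (r u - 1 / 2) ^ 3) :=
        mul_nonneg (by linarith) (by linarith)
      linarith
    have h14 : (7 * t / 4 - 31 / 28) * w ≤ (7 * t / 4 - 31 / 28) * (N / 4) :=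
      mul_le_mul_of_nonneg_left hw (by linarith)
    have h15 : T * N < 171 / 625 * N := mul_lt_mul_of_pos_right hlt hNpos
    have h16 : t * N ≤ N := by nlinarith
    nlinarith

end Pool.H42.Hat
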