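import Pool.Agent.H42.Hat.Sub
import Pool.Agent.H42.Hat.RealPart

set_option autoImplicit false

namespace Pool.H42.Hat

open Finset

lemma wt_add_mul' {G : Type*} [Fintype G] (F H : G → ZMod 2) :
    wt (fun u => F u + H u) + 2 * (univ.filter fun u => F u ≠ 0 ∧ H u ≠ 0).card = wt F + wt H := by
  have key : ∀ a b : ZMod 2, ((if a + b ≠ 0 then 1 else 0)
      + 2 * (if a ≠ 0 ∧ b ≠ 0 then 1 else 0) : ℕ)
      = (if a ≠ 0 then 1 else 0) + (if b ≠ 0 then 1 else 0) := by decide
  rw [Finset.card_filter]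
  simp only [wt_eq_sum, Finset.mul_sum, ← Finset.sum_add_distrib]
  apply Finset.sum_congr rfl
  intro u _
  exact key (F u) (H u)

/-- real sign of a bit -/
noncomputable def sg (a : ZMod 2) : ℝ := if a = 0 then 1 else -1

lemma sg_add (a b : ZMod 2) : sg (a + b) = sg a * sg b := by
  have h : ∀ a : ZMod 2, a = 0 ∨ a = 1 := by decide
  have h11 : (1 : ZMod 2) + 1 = 0 := by decide
  have h10 : (1 : ZMod 2) ≠ 0 := by decide
  rcases h a with rfl | rfl <;> rcases h b with rfl | rfl <;> simp [sg, h11]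

lemma sum_sg_nonneg {h : ℕ} (p : V h) : 0 ≤ ∑ u : V h, sg (p ⬝ᵥ u) := by
  have h1 := two_mul_wt_additive_le (fun u : V h => p ⬝ᵥ u) (fun a b => dotProduct_add _ _ _)
  have h2 : ∑ u : V h, sg (p ⬝ᵥ u) = Fintype.card (V h) - 2 * wt (fun u : V h => p ⬝ᵥ u) := by
    rw [wt_eq_sum]
    push_cast
    rw [← Finset.card_univ, Finset.card_eq_sum_ones]
    push_cast
    rw [Finset.mul_sum, ← Finset.sum_sub_distrib]
    apply Finset.sum_congr rfl
    intro u _
    unfold sg
    by_cases h0 : p ⬝ᵥ u = 0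
    · simp [h0]
    · simp [h0]
      norm_num
  rw [h2]
  have h3 : (2 * wt (fun u : V h => p ⬝ᵥ u) : ℝ) ≤ Fintype.card (V h) := by exact_mod_cast h1
  linarith

section
variable {h : ℕ} (e y : V h → V h) (s z0 : V h)

/-- difference of `y v + y (v + s)` and `z0` -/
def dif (v : V h) : V h := y v + y (v + s) + z0

/-- number of `v` whose difference does not vanish at `u` -/
def th (u : V h) : ℕ := wt (fun v => dif y s z0 v ⬝ᵥ u)

/-- number of `v` for which exactly one of `v`, `v + s` errs at `u` -/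
def ka (u : V h) : ℕ := wt (fun v => E e s z0 u + dif y s z0 v ⬝ᵥ u)

/-- number of `v` that err at `u` -/
def ro (u : V h) : ℕ := wt (fun v => E e v (y v) u)

lemma sum_ro : ∑ u, ro e y u = ∑ v, D e v (y v) := by
  simp only [ro, D, wt_eq_sum]
  rw [Finset.sum_comm]

lemma E_dif (v u : V h) : E e v (y v) u + E e (v + s) (y (v + s)) u
    = E e s z0 u + dif y s z0 v ⬝ᵥ u := by
  rw [← E_add]
  have : v + (v + s) = s := by rw [← add_assoc, add_self_V, zero_add]
  rw [this]
  unfold E dif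
  rw [add_dotProduct (y v + y (v + s)) z0 u]
  have h2 : z0 ⬝ᵥ u + z0 ⬝ᵥ u = 0 := by
    generalize z0 ⬝ᵥ u = a
    revert a
    decide
  linear_combination (-1 : ZMod 2) * h2

lemma ka_le (u : V h) : ka e y s z0 u ≤ 2 * ro e y u := by
  have h1 : ka e y s z0 u = wt (fun v => E e v (y v) u + E e (v + s) (y (v + s)) u) := by
    unfold ka
    apply wt_congr
    intro v
    exact (E_dif e y s z0 v u).symm
  rw [h1]
  refine (wt_add_le _ _).trans ?_
  have h2 : wt (fun v => E e (v + s) (y (v + s)) u) = ro e y u := by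
    unfold ro
    rw [wt_eq_sum, wt_eq_sum]
    exact Equiv.sum_comp (Equiv.addRight s) (fun v => if E e v (y v) u ≠ 0 then 1 else 0)
  rw [h2]
  unfold ro
  omega

lemma ka_eq_of_eq {u : V h} (hu : E e s z0 u = 0) : ka e y s z0 u = th y s z0 u := by
  unfold ka th
  apply wt_congr
  intro v
  rw [hu, zero_add]

lemma ka_add_of_ne {u : V h} (hu : E e s z0 u ≠ 0) :
    ka e y s z0 u + th y s z0 u = Fintype.card (V h) := by
  unfold ka th
  rw [wt_eq_sum, wt_eq_sum, ← Finset.sum_add_distrib, ← Finset.card_univ,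
    Finset.card_eq_sum_ones]
  apply Finset.sum_congr rfl
  intro v _
  revert hu
  generalize E e s z0 u = a
  generalize dif y s z0 v ⬝ᵥ u = b
  revert a b
  decide

/-- main inequality for the common kernel of two forms -/
lemma ker_ineq (he : ∀ u, IsPair (e u)) (b c : V h) :
    (univ.filter fun u : V h => b ⬝ᵥ u = 0 ∧ c ⬝ᵥ u = 0).card * Fintype.card (V h)
      + 4 * ∑ u ∈ univ.filter (fun u : V h => ¬ (b ⬝ᵥ u = 0 ∧ c ⬝ᵥ u = 0)), ka e y s z0 u
      ≤ 4 * (2 * ∑ v, D e v (y v)) := by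
  classical
  have h1 := Q0_sub e he y b c
  have h2 : ∑ u ∈ univ.filter (fun u : V h => b ⬝ᵥ u = 0 ∧ c ⬝ᵥ u = 0), ro e y u
      + ∑ u ∈ univ.filter (fun u : V h => ¬ (b ⬝ᵥ u = 0 ∧ c ⬝ᵥ u = 0)), ro e y u
      = ∑ v, D e v (y v) := by
    rw [← sum_ro]
    exact Finset.sum_filter_add_sum_filter_not _ _ _
  have h3 : ∑ u ∈ univ.filter (fun u : V h => ¬ (b ⬝ᵥ u = 0 ∧ c ⬝ᵥ u = 0)), ka e y s z0 u
      ≤ 2 * ∑ u ∈ univ.filter (fun u : V h => ¬ (b ⬝ᵥ u = 0 ∧ c ⬝ᵥ u = 0)), ro e y u := by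
    rw [Finset.mul_sum]
    exact Finset.sum_le_sum fun u _ => ka_le e y s z0 u
  have h4 : ∑ u ∈ univ.filter (fun u : V h => b ⬝ᵥ u = 0 ∧ c ⬝ᵥ u = 0),
      wt (fun v => E e v (y v) u)
      = ∑ u ∈ univ.filter (fun u : V h => b ⬝ᵥ u = 0 ∧ c ⬝ᵥ u = 0), ro e y u := rfl
  rw [h4] at h1
  omega

/-- the bound obtained by replacing `e` on a set `W` -/
lemma out_ineq (hy : ∀ v, IsPair (y v)) (W : Finset (V h)) :
    Fintype.card (V h) * (Fintype.card (V h) * Fintype.card (V h))
      ≤ 8 * (Fintype.card (V h) * ∑ u ∈ univ \ W, ro e y u)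
        + 8 * (W.card * (2 * ∑ v, D e v (y v))) := by
  classical
  set N := Fintype.card (V h) with hN
  choose x hx using exists_min y
  have hro : ∀ u, D y u (e u) = ro e y u := by
    intro u
    unfold D ro
    apply wt_congr
    intro v
    unfold E
    rw [dotProduct_comm u (y v), dotProduct_comm (e u) v, add_comm]
  have hmin : ∀ u, N * D y u (x u) ≤ 2 * ∑ v, D e v (y v) := by
    intro u
    have h1 : ∀ w, D y u (x u) ≤ ro e y w + ro e y (w + u) := by
      intro w
      have h2 := D_add_le y w (w + u) (e w) (e (w + u))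
      rw [← add_assoc, add_self_V, zero_add] at h2
      refine (hx u _).trans (h2.trans ?_)
      rw [hro, hro]
    have h3 : ∑ _w : V h, D y u (x u) ≤ ∑ w, (ro e y w + ro e y (w + u)) :=
      Finset.sum_le_sum fun w _ => h1 w
    rw [Finset.sum_const, Finset.card_univ, smul_eq_mul, Finset.sum_add_distrib,
      sum_shift, sum_ro] at h3
    rw [hN]
    omega
  have hq := Q0 y hy (fun u => if u ∈ W then x u else e u)
  have h4 : ∑ u, D y u (if u ∈ W then x u else e u)
      = ∑ u ∈ univ \ W, ro e y u + ∑ u ∈ W, D y u (x u) := by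
    rw [← Finset.sum_sdiff (Finset.subset_univ W)]
    congr 1
    · apply Finset.sum_congr rfl
      intro u hu
      have : u ∉ W := by simpa using hu
      rw [if_neg this, hro]
    · apply Finset.sum_congr rfl
      intro u hu
      rw [if_pos hu]
  rw [h4] at hq
  have h5 : N * ∑ u ∈ W, D y u (x u) ≤ W.card * (2 * ∑ v, D e v (y v)) := by
    rw [Finset.mul_sum]
    have : ∑ u ∈ W, N * D y u (x u) ≤ ∑ _u ∈ W, (2 * ∑ v, D e v (y v)) :=
      Finset.sum_le_sum fun u _ => hmin u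
    rwa [Finset.sum_const, smul_eq_mul] at this
  calc N * (N * N) ≤ N * (8 * (∑ u ∈ univ \ W, ro e y u + ∑ u ∈ W, D y u (x u))) :=
        Nat.mul_le_mul_left _ hq
    _ = 8 * (N * ∑ u ∈ univ \ W, ro e y u) + 8 * (N * ∑ u ∈ W, D y u (x u)) := by ring
    _ ≤ _ := by
        apply Nat.add_le_add_left
        exact Nat.mul_le_mul_left _ h5

end

end Pool.H42.Hat
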