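import Pool.Agent.H42.Hat.Non

set_option autoImplicit false

namespace Pool.H42.Hat

open Finset

section
variable {h : ℕ} (e y : V h → V h) (s z0 : V h)

/-- indicator of the kernel of a form -/
noncomputable def ind (b u : V h) : ℝ := if b ⬝ᵥ u = 0 then 1 else 0

lemma ind_sq (b u : V h) : ind b u * ind b u = ind b u := by
  unfold ind
  split_ifs <;> simp

lemma ker_real (he : ∀ u, IsPair (e u)) (b c : V h) :
    ∑ u, (4 * (ka e y s z0 u : ℝ) + ((Fintype.card (V h) : ℝ) - 4 * (ka e y s z0 u : ℝ))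
      * (ind b u * ind c u)) ≤ 4 * (2 * ∑ v, D e v (y v) : ℕ) := by
  classical
  have h1 := ker_ineq e y s z0 he b c
  have h2 : ((univ.filter fun u : V h => b ⬝ᵥ u = 0 ∧ c ⬝ᵥ u = 0).card * Fintype.card (V h) : ℝ)
      = ∑ u, (Fintype.card (V h) : ℝ) * (ind b u * ind c u) := by
    rw [Finset.card_filter, ← Finset.mul_sum, mul_comm]
    push_cast
    congr 1
    apply Finset.sum_congr rfl
    intro u _
    unfold ind
    by_cases hb : b ⬝ᵥ u = 0 <;> by_cases hc : c ⬝ᵥ u = 0 <;> simp [hb, hc]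
  have h3 : ((∑ u ∈ univ.filter (fun u : V h => ¬ (b ⬝ᵥ u = 0 ∧ c ⬝ᵥ u = 0)),
      ka e y s z0 u : ℕ) : ℝ) = ∑ u, (ka e y s z0 u : ℝ) * (1 - ind b u * ind c u) := by
    rw [Finset.sum_filter]
    push_cast
    apply Finset.sum_congr rfl
    intro u _
    unfold ind
    by_cases hb : b ⬝ᵥ u = 0 <;> by_cases hc : c ⬝ᵥ u = 0 <;> simp [hb, hc]
  have h4 : (((univ.filter fun u : V h => b ⬝ᵥ u = 0 ∧ c ⬝ᵥ u = 0).card * Fintype.card (V h) : ℕ) : ℝ)
      + 4 * ((∑ u ∈ univ.filter (fun u : V h => ¬ (b ⬝ᵥ u = 0 ∧ c ⬝ᵥ u = 0)),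
      ka e y s z0 u : ℕ) : ℝ) ≤ 4 * ((2 * ∑ v, D e v (y v) : ℕ) : ℝ) := by
    exact_mod_cast h1
  rw [Nat.cast_mul, h2, h3, Finset.mul_sum, ← Finset.sum_add_distrib] at h4
  refine le_trans (le_of_eq ?_) h4
  apply Finset.sum_congr rfl
  intro u _
  ring

/-- the set of `v` with nonzero difference -/
def BB : Finset (V h) := univ.filter fun v => dif y s z0 v ≠ 0

lemma th_eq (u : V h) : th y s z0 u
    = ((BB y s z0).filter fun v => dif y s z0 v ⬝ᵥ u ≠ 0).card := by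
  classical
  unfold th wt BB
  congr 1
  ext v
  simp only [mem_filter, mem_univ, true_and]
  constructor
  · intro hv
    refine ⟨?_, hv⟩
    intro h0
    apply hv
    rw [h0, zero_dotProduct]
  · exact fun hv => hv.2

lemma th_le (u : V h) : th y s z0 u ≤ (BB y s z0).card := by
  rw [th_eq]
  exact Finset.card_filter_le _ _

lemma sum_ind (u : V h) : ∑ v ∈ BB y s z0, ind (dif y s z0 v) u
    = ((BB y s z0).card : ℝ) - (th y s z0 u : ℝ) := by
  classical
  have h1 : (BB y s z0).card = ((BB y s z0).filter fun v => dif y s z0 v ⬝ᵥ u = 0).card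
      + th y s z0 u := by
    rw [th_eq]
    convert (Finset.card_filter_add_card_filter_not (s := BB y s z0)
      (fun v => dif y s z0 v ⬝ᵥ u = 0)).symm
  have h2 : ∑ v ∈ BB y s z0, ind (dif y s z0 v) u
      = ((BB y s z0).filter fun v => dif y s z0 v ⬝ᵥ u = 0).card := by
    rw [Finset.card_filter]
    push_cast
    rfl
  rw [h2, h1]
  push_cast
  ring

lemma sum_sg (u : V h) : ∑ v ∈ BB y s z0, sg (dif y s z0 v ⬝ᵥ u)
    = ((BB y s z0).card : ℝ) - 2 * (th y s z0 u : ℝ) := by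
  have h1 : ∀ v, sg (dif y s z0 v ⬝ᵥ u) = 2 * ind (dif y s z0 v) u - 1 := by
    intro v
    unfold sg ind
    split_ifs <;> norm_num
  rw [Finset.sum_congr rfl (fun v _ => h1 v), Finset.sum_sub_distrib, ← Finset.mul_sum, sum_ind,
    Finset.sum_const, nsmul_eq_mul]
  ring

lemma third_moment : 0 ≤ ∑ u, (((BB y s z0).card : ℝ) - 2 * (th y s z0 u : ℝ)) ^ 3 := by
  have h1 : ∀ u : V h, (((BB y s z0).card : ℝ) - 2 * (th y s z0 u : ℝ)) ^ 3
      = ∑ a ∈ BB y s z0, ∑ b ∈ BB y s z0, ∑ c ∈ BB y s z0,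
        sg ((dif y s z0 a + dif y s z0 b + dif y s z0 c) ⬝ᵥ u) := by
    intro u
    rw [← sum_sg]
    set S := ∑ v ∈ BB y s z0, sg (dif y s z0 v ⬝ᵥ u) with hS
    have h2 : ∀ a b : V h, ∑ c ∈ BB y s z0,
        sg ((dif y s z0 a + dif y s z0 b + dif y s z0 c) ⬝ᵥ u)
        = sg (dif y s z0 a ⬝ᵥ u) * sg (dif y s z0 b ⬝ᵥ u) * S := by
      intro a b
      rw [hS, Finset.mul_sum]
      apply Finset.sum_congr rfl
      intro c _
      rw [add_dotProduct, add_dotProduct, sg_add, sg_add]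
    have h3 : ∀ a : V h, ∑ b ∈ BB y s z0, ∑ c ∈ BB y s z0,
        sg ((dif y s z0 a + dif y s z0 b + dif y s z0 c) ⬝ᵥ u)
        = sg (dif y s z0 a ⬝ᵥ u) * S * S := by
      intro a
      rw [Finset.sum_congr rfl (fun b _ => h2 a b), ← Finset.sum_mul, ← Finset.mul_sum]
    rw [Finset.sum_congr rfl (fun a _ => h3 a), ← Finset.sum_mul, ← Finset.sum_mul]
    ring
  rw [Finset.sum_congr rfl (fun u _ => h1 u), Finset.sum_comm]
  apply Finset.sum_nonneg
  intro a _
  rw [Finset.sum_comm]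
  apply Finset.sum_nonneg
  intro b _
  rw [Finset.sum_comm]
  apply Finset.sum_nonneg
  intro c _
  exact sum_sg_nonneg _

lemma first_moment : 2 * ∑ u, th y s z0 u = (BB y s z0).card * Fintype.card (V h) := by
  classical
  have h1 : ∑ u, th y s z0 u = ∑ v, wt (fun u : V h => dif y s z0 v ⬝ᵥ u) := by
    simp only [th, wt_eq_sum]
    rw [Finset.sum_comm]
  rw [h1, Finset.mul_sum]
  have h2 : ∀ v, 2 * wt (fun u : V h => dif y s z0 v ⬝ᵥ u)
      = if dif y s z0 v ≠ 0 then Fintype.card (V h) else 0 := by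
    intro v
    split_ifs with hv
    · exact two_mul_wt_additive _ (fun a b => dotProduct_add _ _ _) (exists_dot_ne hv)
    · push Not at hv
      rw [hv]
      simp [wt]
  rw [Finset.sum_congr rfl (fun v _ => h2 v), ← Finset.sum_filter, Finset.sum_const, smul_eq_mul]
  rfl

/-- a nearest linear function makes at most `N/4` errors on every affine hyperplane -/
lemma near_quarter (hmin : ∀ q, D e s z0 ≤ D e s q) :
    4 * ∑ u ∈ univ.filter (fun u => E e s z0 u ≠ 0), th y s z0 u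
      ≤ (BB y s z0).card * Fintype.card (V h) := by
  classical
  have h1 : ∀ b : V h, b ≠ 0 →
      4 * (univ.filter fun u : V h => E e s z0 u ≠ 0 ∧ b ⬝ᵥ u ≠ 0).card ≤ Fintype.card (V h) := by
    intro b hb
    have h2 := wt_add_mul' (E e s z0) (fun u : V h => b ⬝ᵥ u)
    have h3 := two_mul_wt_additive (fun u : V h => b ⬝ᵥ u) (fun a b => dotProduct_add _ _ _)
      (exists_dot_ne hb)
    have h4 := hmin (z0 + b)
    have h5 : D e s (z0 + b) = wt (fun u => E e s z0 u + b ⬝ᵥ u) := by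
      unfold D
      apply wt_congr
      intro u
      unfold E
      rw [add_dotProduct]
      ring
    have h6 : D e s z0 = wt (E e s z0) := rfl
    omega
  have h2 : ∑ u ∈ univ.filter (fun u => E e s z0 u ≠ 0), th y s z0 u
      = ∑ v ∈ BB y s z0,
        (univ.filter fun u : V h => E e s z0 u ≠ 0 ∧ dif y s z0 v ⬝ᵥ u ≠ 0).card := by
    have h3 : ∀ u, th y s z0 u = ∑ v ∈ BB y s z0, (if dif y s z0 v ⬝ᵥ u ≠ 0 then 1 else 0) := by
      intro u
      rw [th_eq, Finset.card_filter]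
    rw [Finset.sum_congr rfl (fun u _ => h3 u), Finset.sum_comm]
    apply Finset.sum_congr rfl
    intro v _
    rw [← Finset.card_filter, Finset.filter_filter]
  rw [h2, Finset.mul_sum]
  have h3 : ∑ v ∈ BB y s z0,
        4 * (univ.filter fun u : V h => E e s z0 u ≠ 0 ∧ dif y s z0 v ⬝ᵥ u ≠ 0).card
      ≤ ∑ _v ∈ BB y s z0, Fintype.card (V h) := by
    apply Finset.sum_le_sum
    intro v hv
    apply h1
    simpa [BB] using hv
  rwa [Finset.sum_const, smul_eq_mul] at h3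

lemma R1_real (he : ∀ u, IsPair (e u)) :
    ∑ u, (4 * (ka e y s z0 u : ℝ) * (BB y s z0).card
      + ((Fintype.card (V h) : ℝ) - 4 * (ka e y s z0 u : ℝ))
        * ((BB y s z0).card - (th y s z0 u : ℝ)))
      ≤ 4 * ((BB y s z0).card : ℝ) * ((2 * ∑ v, D e v (y v) : ℕ) : ℝ) := by
  have h1 : ∑ v ∈ BB y s z0, ∑ u, (4 * (ka e y s z0 u : ℝ)
      + ((Fintype.card (V h) : ℝ) - 4 * (ka e y s z0 u : ℝ))
      * (ind (dif y s z0 v) u * ind (dif y s z0 v) u))
      ≤ ∑ _v ∈ BB y s z0, 4 * ((2 * ∑ v, D e v (y v) : ℕ) : ℝ) :=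
    Finset.sum_le_sum fun v _ => ker_real e y s z0 he _ _
  rw [Finset.sum_comm, Finset.sum_const, nsmul_eq_mul] at h1
  refine le_trans (le_of_eq ?_) (h1.trans (le_of_eq ?_))
  · apply Finset.sum_congr rfl
    intro u _
    rw [Finset.sum_congr rfl (fun v _ => by rw [ind_sq]), Finset.sum_add_distrib,
      Finset.sum_const, nsmul_eq_mul, ← Finset.mul_sum, sum_ind]
    ring
  · ring

lemma R2_real (he : ∀ u, IsPair (e u)) :
    ∑ u, (4 * (ka e y s z0 u : ℝ) * (BB y s z0).card ^ 2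
      + ((Fintype.card (V h) : ℝ) - 4 * (ka e y s z0 u : ℝ))
        * ((BB y s z0).card - (th y s z0 u : ℝ)) ^ 2)
      ≤ 4 * ((BB y s z0).card : ℝ) ^ 2 * ((2 * ∑ v, D e v (y v) : ℕ) : ℝ) := by
  have h1 : ∑ v ∈ BB y s z0, ∑ w ∈ BB y s z0, ∑ u, (4 * (ka e y s z0 u : ℝ)
      + ((Fintype.card (V h) : ℝ) - 4 * (ka e y s z0 u : ℝ))
      * (ind (dif y s z0 v) u * ind (dif y s z0 w) u))
      ≤ ∑ _v ∈ BB y s z0, ∑ _w ∈ BB y s z0, 4 * ((2 * ∑ v, D e v (y v) : ℕ) : ℝ) :=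
    Finset.sum_le_sum fun v _ => Finset.sum_le_sum fun w _ => ker_real e y s z0 he _ _
  rw [Finset.sum_const, Finset.sum_const, nsmul_eq_mul, nsmul_eq_mul] at h1
  refine le_trans (le_of_eq ?_) (h1.trans (le_of_eq ?_))
  · have h2 : ∀ v ∈ BB y s z0, ∑ w ∈ BB y s z0, ∑ u, (4 * (ka e y s z0 u : ℝ)
      + ((Fintype.card (V h) : ℝ) - 4 * (ka e y s z0 u : ℝ))
      * (ind (dif y s z0 v) u * ind (dif y s z0 w) u))
        = ∑ u, (4 * (ka e y s z0 u : ℝ) * (BB y s z0).card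
      + ((Fintype.card (V h) : ℝ) - 4 * (ka e y s z0 u : ℝ))
      * (ind (dif y s z0 v) u * ((BB y s z0).card - (th y s z0 u : ℝ)))) := by
      intro v _
      rw [Finset.sum_comm]
      apply Finset.sum_congr rfl
      intro u _
      rw [Finset.sum_add_distrib, Finset.sum_const, nsmul_eq_mul, ← Finset.mul_sum,
        ← Finset.mul_sum, sum_ind]
      ring
    rw [Finset.sum_congr rfl h2, Finset.sum_comm]
    apply Finset.sum_congr rfl
    intro u _
    rw [Finset.sum_add_distrib, Finset.sum_const, nsmul_eq_mul, ← Finset.mul_sum,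
      ← Finset.sum_mul, sum_ind]
    ring
  · ring

end

end Pool.H42.Hat
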