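import Pool.Agent.H42.Hat.Non2

set_option autoImplicit false

namespace Pool.H42.Hat

open Finset

/-- If some cut is at distance at least `N/6` from all linear functions, the error rate is at least
`171/1250`. -/
theorem nonlinear_case {h : ℕ} (e y : V h → V h) (he : ∀ u, IsPair (e u)) (hy : ∀ v, IsPair (y v))
    (s z0 : V h) (hmin : ∀ q, D e s z0 ≤ D e s q) (hD : Fintype.card (V h) ≤ 6 * D e s z0) :
    171 * (Fintype.card (V h) * Fintype.card (V h)) ≤ 625 * (2 * ∑ v, D e v (y v)) := by
  classical
  set W : Finset (V h) := univ.filter (fun u => E e s z0 u ≠ 0) with hW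
  set n : ℕ := (BB y s z0).card with hn
  set N : ℕ := Fintype.card (V h) with hN
  set T' : ℕ := 2 * ∑ v, D e v (y v) with hT'
  have hNpos : 0 < N := Fintype.card_pos
  have hWD : W.card = D e s z0 := rfl
  -- the inequality (ii) in integers
  have hB0 : N * (N * N) + 4 * N * (W.card * N - ∑ u ∈ W, th y s z0 u)
      ≤ 4 * N * T' + 8 * (W.card * T') ∧ ∑ u ∈ W, th y s z0 u ≤ W.card * N := by
    have h1 := out_ineq e y hy W
    have h2 : ∑ u ∈ W, ka e y s z0 u + ∑ u ∈ W, th y s z0 u = W.card * N := by
      rw [← Finset.sum_add_distrib]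
      have : ∀ u ∈ W, ka e y s z0 u + th y s z0 u = N := by
        intro u hu
        apply ka_add_of_ne
        simpa [hW] using hu
      rw [Finset.sum_congr rfl this, Finset.sum_const, smul_eq_mul]
    have h3 : ∑ u ∈ W, ka e y s z0 u ≤ 2 * ∑ u ∈ W, ro e y u := by
      rw [Finset.mul_sum]
      exact Finset.sum_le_sum fun u _ => ka_le e y s z0 u
    have h4 : ∑ u ∈ univ \ W, ro e y u + ∑ u ∈ W, ro e y u = ∑ v, D e v (y v) := by
      rw [← sum_ro]
      exact Finset.sum_sdiff (Finset.subset_univ W)
    have h5 : W.card * N - ∑ u ∈ W, th y s z0 u = ∑ u ∈ W, ka e y s z0 u := by omega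
    have h6 : 2 * ∑ u ∈ univ \ W, ro e y u + ∑ u ∈ W, ka e y s z0 u ≤ T' := by omega
    refine ⟨?_, by omega⟩
    rw [h5]
    have h7 : 4 * N * (2 * ∑ u ∈ univ \ W, ro e y u + ∑ u ∈ W, ka e y s z0 u) ≤ 4 * N * T' :=
      Nat.mul_le_mul_left _ h6
    have h1' : N * (N * N) ≤ 8 * (N * ∑ u ∈ univ \ W, ro e y u) + 8 * (W.card * T') := h1
    nlinarith
  have hcast : ((W.card * N - ∑ u ∈ W, th y s z0 u : ℕ) : ℝ)
      = (W.card : ℝ) * N - ∑ u ∈ W, (th y s z0 u : ℝ) := by
    rw [Nat.cast_sub hB0.2]
    push_cast
    ring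
  have hB1 : (N : ℝ) * (N * N) + 4 * N * ((W.card : ℝ) * N - ∑ u ∈ W, (th y s z0 u : ℝ))
      ≤ 4 * N * T' + 8 * (W.card * T') := by
    rw [← hcast]
    exact_mod_cast hB0.1
  have hNr : (0 : ℝ) < N := by exact_mod_cast hNpos
  have hWr : (N : ℝ) / 6 ≤ W.card := by
    have : (N : ℝ) ≤ 6 * W.card := by
      rw [hWD]
      exact_mod_cast hD
    linarith
  have goal_of : (171 / 625 : ℝ) ≤ T' / (N * N) → 171 * (N * N) ≤ 625 * T' := by
    intro hh
    have h2 : (0 : ℝ) < N * N := by positivity
    rw [le_div_iff₀ h2] at hh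
    have h3 : (171 : ℝ) * (N * N) ≤ 625 * T' := by linarith
    exact_mod_cast h3
  apply goal_of
  rcases Nat.eq_zero_or_pos n with hn0 | hnpos
  · -- all differences vanish
    have hth : ∀ u, th y s z0 u = 0 := by
      intro u
      have := th_le y s z0 u
      rw [← hn, hn0] at this
      omega
    have h1 : ∑ u ∈ W, (th y s z0 u : ℝ) = 0 := by
      apply Finset.sum_eq_zero
      intro u _
      rw [hth u]
      simp
    rw [h1] at hB1
    have h2 : (0 : ℝ) < N * N := by positivity
    rw [le_div_iff₀ h2]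
    -- N^2 (N + 4 W) ≤ 4 T' (N + 2 W)
    have h3 : (N : ℝ) * N * (N + 4 * W.card) ≤ 4 * T' * (N + 2 * W.card) := by nlinarith
    have h4 : (0 : ℝ) < N + 2 * W.card := by positivity
    have h5 : (171 / 625 : ℝ) * (4 * (N + 2 * W.card)) ≤ N + 4 * W.card := by linarith
    have h6 : (171 / 625 : ℝ) * (N * N) * (4 * (N + 2 * W.card)) ≤ T' * (4 * (N + 2 * W.card)) := by
      have h7 := mul_le_mul_of_nonneg_left h5 h2.le
      nlinarith
    exact le_of_mul_le_mul_right h6 (by positivity)
  · have hnr : (0 : ℝ) < n := by exact_mod_cast hnpos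
    have hnN : n ≤ N := by
      rw [hn, hN]
      exact Finset.card_le_univ _
    have hnNr : (n : ℝ) ≤ N := by exact_mod_cast hnN
    have hkaC : ∀ u, u ∉ W → (ka e y s z0 u : ℝ) = th y s z0 u := by
      intro u hu
      have : E e s z0 u = 0 := by
        by_contra hcon
        exact hu (by simp [hW, hcon])
      rw [ka_eq_of_eq e y s z0 this]
    have hkaW : ∀ u, u ∈ W → (ka e y s z0 u : ℝ) = N - th y s z0 u := by
      intro u hu
      have h1 : E e s z0 u ≠ 0 := by simpa [hW] using hu
      have h2 := ka_add_of_ne e y s z0 h1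
      have h3 : (ka e y s z0 u : ℝ) + th y s z0 u = N := by exact_mod_cast h2
      linarith
    have hka : ∀ u, (if u ∈ W then 1 - (n : ℝ) / N * ((th y s z0 u : ℝ) / n)
        else (n : ℝ) / N * ((th y s z0 u : ℝ) / n)) = (ka e y s z0 u : ℝ) / N := by
      intro u
      split_ifs with hu
      · rw [hkaW u hu]
        field_simp
      · rw [hkaC u hu]
        field_simp
    apply real_part W (fun u => (th y s z0 u : ℝ) / n) ((n : ℝ) / N) ((T' : ℝ) / (N * N)) N rfl hNr
    · intro u
      positivity
    · intro u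
      rw [div_le_one hnr]
      exact_mod_cast th_le y s z0 u
    · positivity
    · rw [div_le_one hNr]
      exact hnNr
    · rw [← Finset.sum_div]
      have h1 := first_moment y s z0
      have h2 : 2 * ∑ u, (th y s z0 u : ℝ) = n * N := by exact_mod_cast h1
      rw [div_eq_iff hnr.ne']
      linarith
    · have h1 := third_moment y s z0
      have h2 : ∑ u, ((th y s z0 u : ℝ) / n - 1 / 2) ^ 3
          = -(1 / (8 * (n : ℝ) ^ 3)) * ∑ u, ((n : ℝ) - 2 * (th y s z0 u : ℝ)) ^ 3 := by
        rw [Finset.mul_sum]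
        apply Finset.sum_congr rfl
        intro u _
        field_simp
        ring
      rw [h2]
      have h3 : 0 ≤ (1 / (8 * (n : ℝ) ^ 3)) * ∑ u, ((n : ℝ) - 2 * (th y s z0 u : ℝ)) ^ 3 :=
        mul_nonneg (by positivity) h1
      linarith
    · exact hWr
    · rw [← Finset.sum_div, div_le_iff₀ hnr]
      have h1 := near_quarter e y s z0 hmin
      have h2 : 4 * ∑ u ∈ W, (th y s z0 u : ℝ) ≤ n * N := by exact_mod_cast h1
      linarith
    · rw [← Finset.sum_div]
      have h1 : (n : ℝ) / N * ((∑ u ∈ W, (th y s z0 u : ℝ)) / n)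
          = (∑ u ∈ W, (th y s z0 u : ℝ)) / N := by
        field_simp
      rw [h1]
      have h2 : (T' : ℝ) / (N * N) * (N + 2 * W.card)
          = (4 * N * T' + 8 * (W.card * T')) / (4 * (N * N)) := by
        field_simp
        ring
      have h3 : (N : ℝ) / 4 + W.card - (∑ u ∈ W, (th y s z0 u : ℝ)) / N
          = ((N : ℝ) * (N * N) + 4 * N * ((W.card : ℝ) * N - ∑ u ∈ W, (th y s z0 u : ℝ)))
            / (4 * (N * N)) := by
        field_simp
        ring
      rw [h2, h3]
      apply div_le_div_of_nonneg_right hB1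
      positivity
    · have h1 := R1_real e y s z0 he
      have h2 : ∑ u, ((1 / 4 : ℝ) * (1 - (th y s z0 u : ℝ) / n)
          + (if u ∈ W then 1 - (n : ℝ) / N * ((th y s z0 u : ℝ) / n)
            else (n : ℝ) / N * ((th y s z0 u : ℝ) / n)) * ((th y s z0 u : ℝ) / n))
          = (1 / (4 * n * N)) * ∑ u, (4 * (ka e y s z0 u : ℝ) * n
      + ((N : ℝ) - 4 * (ka e y s z0 u : ℝ)) * (n - (th y s z0 u : ℝ))) := by
        rw [Finset.mul_sum]
        apply Finset.sum_congr rfl
        intro u _
        rw [hka]
        field_simp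
        ring
      rw [h2]
      have h3 : (T' : ℝ) / (N * N) * N = (1 / (4 * n * N)) * (4 * (n : ℝ) * T') := by
        field_simp
      rw [h3]
      exact mul_le_mul_of_nonneg_left h1 (by positivity)
    · have h1 := R2_real e y s z0 he
      have h2 : ∑ u, ((1 / 4 : ℝ) * (1 - (th y s z0 u : ℝ) / n) ^ 2
          + (if u ∈ W then 1 - (n : ℝ) / N * ((th y s z0 u : ℝ) / n)
            else (n : ℝ) / N * ((th y s z0 u : ℝ) / n))
              * (2 * ((th y s z0 u : ℝ) / n) - ((th y s z0 u : ℝ) / n) ^ 2))
          = (1 / (4 * (n : ℝ) ^ 2 * N)) * ∑ u, (4 * (ka e y s z0 u : ℝ) * n ^ 2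
      + ((N : ℝ) - 4 * (ka e y s z0 u : ℝ)) * (n - (th y s z0 u : ℝ)) ^ 2) := by
        rw [Finset.mul_sum]
        apply Finset.sum_congr rfl
        intro u _
        rw [hka]
        field_simp
        ring
      rw [h2]
      have h3 : (T' : ℝ) / (N * N) * N = (1 / (4 * (n : ℝ) ^ 2 * N)) * (4 * (n : ℝ) ^ 2 * T') := by
        field_simp
      rw [h3]
      exact mul_le_mul_of_nonneg_left h1 (by positivity)

/-- Two-sided bound: the error rate of pair-valued `e` and `y` is at least `171/1250`. -/
theorem two_sided {h : ℕ} (e y : V h → V h) (he : ∀ u, IsPair (e u)) (hy : ∀ v, IsPair (y v)) :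
    171 * (Fintype.card (V h) * Fintype.card (V h)) ≤ 625 * (2 * ∑ v, D e v (y v)) := by
  classical
  set N := Fintype.card (V h) with hN
  choose z hz using exists_min e
  by_cases hall : ∃ s, N ≤ 6 * D e s (z s)
  · obtain ⟨s, hs⟩ := hall
    exact nonlinear_case e y he hy s (z s) (hz s) hs
  · push Not at hall
    -- `z` is additive
    have hzadd : ∀ s t, z (s + t) = z s + z t := by
      intro s t
      by_contra hne
      have hne' : z s + z t + z (s + t) ≠ 0 := by
        intro h0
        apply hne
        have h1 : z s + z t + z (s + t) + z (s + t) = z (s + t) := by rw [h0, zero_add]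
        rw [add_assoc, add_self_V, add_zero] at h1
        exact h1.symm
      have h1 := D_add_le e (s + t) (s + t) (z s + z t) (z (s + t))
      have h2 := D_add_le e s t (z s) (z t)
      rw [add_self_V] at h1
      have h3 := two_mul_D_zero e hne'
      have h4 := hall s
      have h5 := hall t
      have h6 := hall (s + t)
      omega
    -- the linear map
    let L : V h →ₗ[ZMod 2] V h := AddMonoidHom.toZModLinearMap 2
      (AddMonoidHom.mk' z (fun a b => hzadd a b))
    have hL : ∀ v, L v = z v := fun v => rfl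
    set M : Matrix (Fin h) (Fin h) (ZMod 2) := (LinearMap.toMatrix' L).transpose with hM
    have hzM : ∀ v u : V h, z v ⬝ᵥ u = v ⬝ᵥ M.mulVec u := by
      intro v u
      rw [Matrix.dotProduct_mulVec, hM, Matrix.vecMul_transpose, LinearMap.toMatrix'_mulVec, hL]
    set S : Finset (V h) := univ.filter fun u => e u = M.mulVec u with hS
    by_cases hlin : 5 * N ≤ 8 * S.card
    · have := near_linear e y he hy M hlin
      rw [← hN] at this
      omega
    · push Not at hlin
      have hE : ∀ v u, E e v (z v) u = v ⬝ᵥ (e u + M.mulVec u) := by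
        intro v u
        unfold E
        rw [hzM, dotProduct_add]
      have hswap : ∑ v, D e v (z v) = ∑ u, wt (fun v => E e v (z v) u) := by
        simp only [D, wt_eq_sum]
        rw [Finset.sum_comm]
      have hle : ∑ v, D e v (z v) ≤ ∑ v, D e v (y v) :=
        Finset.sum_le_sum fun v _ => hz v (y v)
      have h1 : (N - S.card) * N ≤ 2 * ∑ v, D e v (z v) := by
        rw [hswap, Finset.mul_sum]
        have h2 : ∑ u ∈ univ \ S, 2 * wt (fun v => E e v (z v) u) ≤
            ∑ u, 2 * wt (fun v => E e v (z v) u) :=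
          Finset.sum_le_sum_of_subset (Finset.sdiff_subset)
        refine le_trans ?_ h2
        have h3 : ∑ u ∈ univ \ S, 2 * wt (fun v => E e v (z v) u) = ∑ u ∈ univ \ S, N := by
          apply Finset.sum_congr rfl
          intro u hu
          have hu' : u ∉ S := by simpa using hu
          have hne : e u + M.mulVec u ≠ 0 := by
            intro h0
            apply hu'
            simp only [hS, mem_filter, mem_univ, true_and]
            have : e u + M.mulVec u + M.mulVec u = M.mulVec u := by rw [h0, zero_add]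
            rw [add_assoc, add_self_V, add_zero] at this
            exact this
          apply two_mul_wt_additive
          · intro a b
            rw [hE, hE, hE, add_dotProduct]
          · obtain ⟨v, hv⟩ := exists_dot_ne hne
            refine ⟨v, ?_⟩
            rw [hE, dotProduct_comm]
            exact hv
        rw [h3, Finset.sum_const, smul_eq_mul, Finset.card_sdiff_of_subset
          (Finset.subset_univ S), Finset.card_univ]
      have h2 : S.card ≤ N := Finset.card_le_univ _
      have h3 : 3 * N ≤ 8 * (N - S.card) := by omega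
      have h4 : 3 * N * N ≤ 8 * (N - S.card) * N := Nat.mul_le_mul_right _ h3
      nlinarith

end Pool.H42.Hat
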