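import Pool.Agent.H42.Hat.Core

set_option autoImplicit false

namespace Pool.H42.Hat

open Finset

/-- vectors of weight two -/
def IsPair {h : ℕ} (x : V h) : Prop := ∃ i j : Fin h, i ≠ j ∧ x = Pi.single i 1 + Pi.single j 1

lemma wt_pair {h : ℕ} {i j : Fin h} (hij : i ≠ j) :
    wt (Pi.single i 1 + Pi.single j 1 : V h) = 2 := by
  unfold wt
  have : (univ.filter fun u : Fin h => (Pi.single i 1 + Pi.single j 1 : V h) u ≠ 0) = {i, j} := by
    ext k
    simp only [mem_filter, mem_univ, true_and, Pi.add_apply, mem_insert, mem_singleton]
    by_cases h1 : k = i
    · subst h1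
      simp [hij]
    · by_cases h2 : k = j
      · subst h2
        simp [h1]
      · simp [h1, h2]
  rw [this, Finset.card_pair hij]

lemma wt_add_mul {h : ℕ} (x y : V h) :
    wt (x + y) + 2 * wt (fun k => x k * y k) = wt x + wt y := by
  have key : ∀ a b : ZMod 2, ((if a + b ≠ 0 then 1 else 0) + 2 * (if a * b ≠ 0 then 1 else 0) : ℕ)
      = (if a ≠ 0 then 1 else 0) + (if b ≠ 0 then 1 else 0) := by decide
  simp only [wt_eq_sum, Finset.mul_sum, ← Finset.sum_add_distrib]
  apply Finset.sum_congr rfl
  intro u _
  exact key (x u) (y u)

/-- if `x` and `x + c` both have weight two, `c = ε_i + ε_j`, then `x i + x j = 1` -/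
lemma pair_add {h : ℕ} {x : V h} {i j : Fin h} (hij : i ≠ j) (hx : IsPair x)
    (hxc : IsPair (x + (Pi.single i 1 + Pi.single j 1))) : x i + x j ≠ 0 := by
  intro h0
  have hxij : x i = x j := by
    revert h0
    generalize x i = a
    generalize x j = b
    revert a b
    decide
  obtain ⟨a, b, hab, rfl⟩ := hx
  obtain ⟨a', b', hab', h2⟩ := hxc
  have h3 := wt_add_mul (Pi.single a 1 + Pi.single b 1 : V h) (Pi.single i 1 + Pi.single j 1)
  rw [h2, wt_pair hab', wt_pair hab, wt_pair hij] at h3
  set x : V h := Pi.single a 1 + Pi.single b 1 with hx
  set c : V h := Pi.single i 1 + Pi.single j 1 with hc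
  have h4 : ∀ k, x k * c k = x i * c k := by
    intro k
    by_cases h1 : k = i
    · rw [h1]
    · by_cases h2 : k = j
      · rw [h2, hxij]
      · have : c k = 0 := by
          simp [hc, h1, h2]
        rw [this, mul_zero, mul_zero]
  rw [wt_congr h4] at h3
  have h5 : x i = 0 ∨ x i = 1 := by
    generalize x i = a
    revert a
    decide
  rcases h5 with h5 | h5
  · have : wt (fun k => x i * c k) = 0 := by
      rw [h5]
      simp [wt]
    omega
  · have : wt (fun k => x i * c k) = 2 := by
      rw [h5]
      simp only [one_mul]
      exact wt_pair hij
    omega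

section
variable {h : ℕ} (e : V h → V h)

lemma sum_shift {h : ℕ} (δ : V h → ℕ) (s : V h) : ∑ v, δ (v + s) = ∑ v, δ v :=
  Equiv.sum_comp (Equiv.addRight s) δ

/-- number of labels on which a family of weight two vectors agrees with a linear map -/
lemma card_linear_le (he : ∀ u, IsPair (e u)) (z : V h → V h)
    (S : Finset (V h)) (hS : ∀ u ∈ S, ∀ v, E e v (z v) u = 0) :
    4 * S.card ≤ 3 * Fintype.card (V h) := by
  classical
  rcases S.eq_empty_or_nonempty with rfl | ⟨u0, hu0⟩
  · simp
  obtain ⟨i, j, hij, heu0⟩ := he u0
  set c : V h := Pi.single i 1 + Pi.single j 1 with hc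
  have hψ : 2 * wt (fun u : V h => z c ⬝ᵥ u) ≤ Fintype.card (V h) :=
    two_mul_wt_additive_le _ (fun a b => dotProduct_add _ _ _)
  have key : ∀ u, u ∈ S → u + u0 ∈ S → z c ⬝ᵥ u ≠ 0 := by
    intro u hu hu'
    have hE : ∀ u ∈ S, ∀ v, v ⬝ᵥ e u = z v ⬝ᵥ u := by
      intro u hu v
      have := hS u hu v
      unfold E at this
      revert this
      generalize v ⬝ᵥ e u = a
      generalize z v ⬝ᵥ u = b
      revert a b
      decide
    have h1 : e (u + u0) = e u + e u0 := by
      funext k
      have h2 := hE _ hu' (Pi.single k 1)
      rw [dotProduct_add, ← hE u hu, ← hE u0 hu0, ← dotProduct_add] at h2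
      simpa using h2
    have h3 : e u i + e u j ≠ 0 := by
      apply pair_add hij (he u)
      rw [← hc, ← heu0, ← h1]
      exact he _
    rw [← hE u hu c, hc, add_dotProduct]
    simpa using h3
  set S' : Finset (V h) := S.image (fun u => u + u0) with hS'
  have hcard' : S'.card = S.card := by
    rw [hS']
    apply Finset.card_image_of_injective
    intro a b hab
    exact add_right_cancel hab
  have hinter : (S ∩ S').card ≤ wt (fun u : V h => z c ⬝ᵥ u) := by
    unfold wt
    apply Finset.card_le_card
    intro u hu
    simp only [mem_inter, hS', mem_image, mem_filter, mem_univ, true_and] at hu ⊢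
    obtain ⟨hu1, a, ha, hau⟩ := hu
    apply key u hu1
    have : u + u0 = a := by
      rw [← hau, add_assoc, add_self_V, add_zero]
    rw [this]
    exact ha
  have hunion : (S ∪ S').card ≤ Fintype.card (V h) := Finset.card_le_univ _
  have := Finset.card_union_add_card_inter S S'
  omega

theorem Q0 (he : ∀ u, IsPair (e u)) (y : V h → V h) :
    Fintype.card (V h) * Fintype.card (V h) ≤ 8 * ∑ v, D e v (y v) := by
  classical
  by_contra hlt
  push Not at hlt
  set N := Fintype.card (V h) with hN
  choose z hz using exists_min e
  set δ : V h → ℕ := fun v => D e v (z v) with hδ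
  have hsum : 8 * ∑ v, δ v < N * N := by
    refine lt_of_le_of_lt ?_ hlt
    apply Nat.mul_le_mul_left
    apply Finset.sum_le_sum
    intro v _
    exact hz v (y v)
  have hNpos : 0 < N := by
    rw [hN]
    exact Fintype.card_pos
  have step1 : ∀ s, 4 * δ s < N := by
    intro s
    by_contra hcon
    push Not at hcon
    have h1 : ∀ v, δ s ≤ δ v + δ (v + s) := by
      intro v
      have h2 := D_add_le e v (v + s) (z v) (z (v + s))
      rw [← add_assoc, add_self_V, zero_add] at h2
      exact (hz s _).trans h2
    have h3 : N * δ s ≤ 2 * ∑ v, δ v := by
      have h4 : ∑ _v : V h, δ s ≤ ∑ v, (δ v + δ (v + s)) := Finset.sum_le_sum fun v _ => h1 v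
      rw [Finset.sum_const, Finset.card_univ, smul_eq_mul, Finset.sum_add_distrib,
        sum_shift] at h4
      rw [hN]
      linarith
    nlinarith
  have step2 : ∀ s t, z s + z t + z (s + t) = 0 := by
    intro s t
    by_contra hne
    have htri : N ≤ 2 * (δ s + δ t + δ (s + t)) := by
      have h1 := D_add_le e (s + t) (s + t) (z s + z t) (z (s + t))
      have h2 := D_add_le e s t (z s) (z t)
      rw [add_self_V] at h1
      have h3 := two_mul_D_zero e hne
      simp only [hδ]
      omega
    have four : ∀ v, N ≤ 2 * (δ v + δ (v + s) + δ (v + t) + δ (v + s + t)) := by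
      intro v
      by_cases hv : z v + z (v + s) + z (v + t) + z (v + s + t) = 0
      · have e4 : z (v + s + t) = z v + z (v + s) + z (v + t) := by
          have h1 : z v + z (v + s) + z (v + t) + z (v + s + t) + z (v + s + t)
              = z (v + s + t) := by rw [hv, zero_add]
          rw [add_assoc, add_self_V, add_zero] at h1
          exact h1.symm
        have v4 : v + s + t = v + (v + s) + (v + t) := by
          have : v + (v + s) + (v + t) = v + v + (v + s + t) := by abel
          rw [this, add_self_V, zero_add]
        have hF4 : ∀ u, E e (v + s + t) (z (v + s + t)) u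
            = E e v (z v) u + E e (v + s) (z (v + s)) u + E e (v + t) (z (v + t)) u := by
          intro u
          rw [← E_add, ← E_add, ← v4, ← e4]
        have h4 := wt_four _ _ _ _ hF4
        have hA : wt (fun u => E e v (z v) u + E e (v + s) (z (v + s)) u)
            = D e s (z v + z (v + s)) := by
          unfold D
          apply wt_congr
          intro u
          rw [← E_add]
          have : v + (v + s) = s := by rw [← add_assoc, add_self_V, zero_add]
          rw [this]
        have hB : wt (fun u => E e v (z v) u + E e (v + t) (z (v + t)) u)
            = D e t (z v + z (v + t)) := by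
          unfold D
          apply wt_congr
          intro u
          rw [← E_add]
          have : v + (v + t) = t := by rw [← add_assoc, add_self_V, zero_add]
          rw [this]
        have hC : wt (fun u => E e (v + s) (z (v + s)) u + E e (v + t) (z (v + t)) u)
            = D e (s + t) (z (v + s) + z (v + t)) := by
          unfold D
          apply wt_congr
          intro u
          rw [← E_add]
          have : v + s + (v + t) = s + t := by
            have : v + s + (v + t) = v + v + (s + t) := by abel
            rw [this, add_self_V, zero_add]
          rw [this]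
        rw [hA, hB, hC] at h4
        set p := z v + z (v + s) with hp
        set q := z v + z (v + t) with hq
        set r := z (v + s) + z (v + t) with hr
        have hpqr : p + q + r = 0 := by
          have : p + q + r = (z v + z v) + (z (v + s) + z (v + s)) + (z (v + t) + z (v + t)) := by
            rw [hp, hq, hr]; abel
          rw [this]
          simp only [add_self_V, add_zero]
        have hds : D e v (z v) = δ v := rfl
        have hd1 : wt (E e v (z v)) = δ v := rfl
        have hd2 : wt (E e (v + s) (z (v + s))) = δ (v + s) := rfl
        have hd3 : wt (E e (v + t) (z (v + t))) = δ (v + t) := rfl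
        have hd4 : wt (E e (v + s + t) (z (v + s + t))) = δ (v + s + t) := rfl
        rw [hd1, hd2, hd3, hd4] at h4
        have hs1 := step1 s
        have ht1 := step1 t
        have hst1 := step1 (s + t)
        by_cases hps : p = z s
        · by_cases hqt : q = z t
          · by_cases hrt : r = z (s + t)
            · exfalso
              apply hne
              rw [← hps, ← hqt, ← hrt]
              exact hpqr
            · have h5 := half_le e (s + t) r (z (s + t)) hrt
              rw [hps, hqt] at h4
              have h6 : D e s (z s) = δ s := rfl
              have h7 : D e t (z t) = δ t := rfl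
              have h8 : D e (s + t) (z (s + t)) = δ (s + t) := rfl
              omega
          · by_cases hrt : r = z (s + t)
            · have h5 := half_le e t q (z t) hqt
              rw [hps, hrt] at h4
              have h6 : D e s (z s) = δ s := rfl
              have h7 : D e t (z t) = δ t := rfl
              have h8 : D e (s + t) (z (s + t)) = δ (s + t) := rfl
              omega
            · have h5 := half_le e t q (z t) hqt
              have h5' := half_le e (s + t) r (z (s + t)) hrt
              have h7 : D e t (z t) = δ t := rfl
              have h8 : D e (s + t) (z (s + t)) = δ (s + t) := rfl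
              omega
        · by_cases hqt : q = z t
          · by_cases hrt : r = z (s + t)
            · have h5 := half_le e s p (z s) hps
              rw [hqt, hrt] at h4
              have h6 : D e s (z s) = δ s := rfl
              have h7 : D e t (z t) = δ t := rfl
              have h8 : D e (s + t) (z (s + t)) = δ (s + t) := rfl
              omega
            · have h5 := half_le e s p (z s) hps
              have h5' := half_le e (s + t) r (z (s + t)) hrt
              have h7 : D e s (z s) = δ s := rfl
              have h8 : D e (s + t) (z (s + t)) = δ (s + t) := rfl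
              omega
          · have h5 := half_le e s p (z s) hps
            have h5' := half_le e t q (z t) hqt
            have h7 : D e s (z s) = δ s := rfl
            have h8 : D e t (z t) = δ t := rfl
            omega
      · have h1 := D_add_le e (v + (v + s) + (v + t)) (v + s + t)
          (z v + z (v + s) + z (v + t)) (z (v + s + t))
        have h2 := D_add_le e (v + (v + s)) (v + t) (z v + z (v + s)) (z (v + t))
        have h3 := D_add_le e v (v + s) (z v) (z (v + s))
        have h0 : v + (v + s) + (v + t) + (v + s + t) = 0 := by
          have : v + (v + s) + (v + t) + (v + s + t)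
              = (v + v) + (v + v) + (s + s) + (t + t) := by abel
          rw [this]
          simp only [add_self_V, add_zero]
        rw [h0] at h1
        have h4 := two_mul_D_zero e hv
        simp only [hδ]
        omega
    have h5 : N * N ≤ 8 * ∑ v, δ v := by
      have h6 : ∑ _v : V h, N ≤ ∑ v, 2 * (δ v + δ (v + s) + δ (v + t) + δ (v + s + t)) :=
        Finset.sum_le_sum fun v _ => four v
      rw [Finset.sum_const, Finset.card_univ, smul_eq_mul, ← Finset.mul_sum,
        Finset.sum_add_distrib, Finset.sum_add_distrib, Finset.sum_add_distrib, sum_shift,
        sum_shift] at h6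
      have h7 : ∑ v, δ (v + s + t) = ∑ v, δ v := by
        have : ∑ v, δ (v + s + t) = ∑ v, δ (v + (s + t)) := by
          apply Finset.sum_congr rfl
          intro v _
          rw [add_assoc]
        rw [this, sum_shift]
      rw [h7] at h6
      rw [← hN] at h6
      linarith
    omega
  -- step 3: `z` is additive
  have hzadd : ∀ s t, z (s + t) = z s + z t := by
    intro s t
    have h1 : z s + z t + z (s + t) + z (s + t) = z (s + t) := by rw [step2, zero_add]
    rw [add_assoc, add_self_V, add_zero] at h1
    exact h1.symm
  set S : Finset (V h) := univ.filter fun u => ∀ v, E e v (z v) u = 0 with hS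
  have hScard : 4 * S.card ≤ 3 * N := by
    apply card_linear_le e he z
    intro u hu v
    simp only [hS, mem_filter, mem_univ, true_and] at hu
    exact hu v
  have hswap : ∑ v, δ v = ∑ u, wt (fun v => E e v (z v) u) := by
    simp only [hδ, D, wt_eq_sum]
    rw [Finset.sum_comm]
  have hcomp : ∀ u, u ∉ S → 2 * wt (fun v => E e v (z v) u) = N := by
    intro u hu
    apply two_mul_wt_additive
    · intro a b
      rw [hzadd, E_add]
    · simp only [hS, mem_filter, mem_univ, true_and, not_forall] at hu
      exact hu
  have h1 : (N - S.card) * N ≤ 2 * ∑ v, δ v := by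
    rw [hswap, Finset.mul_sum]
    have h2 : ∑ u ∈ univ \ S, 2 * wt (fun v => E e v (z v) u) ≤
        ∑ u, 2 * wt (fun v => E e v (z v) u) :=
      Finset.sum_le_sum_of_subset (Finset.sdiff_subset)
    refine le_trans ?_ h2
    have h3 : ∑ u ∈ univ \ S, 2 * wt (fun v => E e v (z v) u) = ∑ u ∈ univ \ S, N := by
      apply Finset.sum_congr rfl
      intro u hu
      apply hcomp
      simpa using hu
    rw [h3, Finset.sum_const, smul_eq_mul, Finset.card_sdiff_of_subset (Finset.subset_univ S),
      Finset.card_univ]
  have h2 : S.card ≤ N := Finset.card_le_univ _
  have h3 : N ≤ 4 * (N - S.card) := by omega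
  nlinarith

end

end Pool.H42.Hat
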