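import Pool.Agent.H42.Hat.Near

set_option autoImplicit false

namespace Pool.H42.Hat

open Finset

/-- `Q0` on the common kernel of two linear forms. -/
theorem Q0_sub {h : ℕ} (e : V h → V h) (he : ∀ u, IsPair (e u)) (y : V h → V h) (b c : V h) :
    (univ.filter fun u : V h => b ⬝ᵥ u = 0 ∧ c ⬝ᵥ u = 0).card * Fintype.card (V h)
      ≤ 8 * ∑ u ∈ univ.filter (fun u : V h => b ⬝ᵥ u = 0 ∧ c ⬝ᵥ u = 0),
          wt (fun v => E e v (y v) u) := by
  classical
  -- the kernel as a submodule
  let S : Submodule (ZMod 2) (V h) :=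
    { carrier := {u | b ⬝ᵥ u = 0 ∧ c ⬝ᵥ u = 0}
      add_mem' := by
        rintro a a' ⟨h1, h2⟩ ⟨h3, h4⟩
        refine ⟨?_, ?_⟩
        · rw [dotProduct_add, h1, h3, add_zero]
        · rw [dotProduct_add, h2, h4, add_zero]
      zero_mem' := by
        refine ⟨dotProduct_zero _, dotProduct_zero _⟩
      smul_mem' := by
        rintro k a ⟨h1, h2⟩
        refine ⟨?_, ?_⟩
        · rw [dotProduct_smul, h1, smul_zero]
        · rw [dotProduct_smul, h2, smul_zero] }
  obtain ⟨g, hg⟩ := LinearMap.exists_leftInverse_of_injective S.subtype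
    (by rw [Submodule.ker_subtype])
  set P : V h →ₗ[ZMod 2] V h := S.subtype.comp g with hP
  set M := LinearMap.toMatrix' P with hM
  have hMv : ∀ u, M.mulVec u = P u := by
    intro u
    rw [hM, LinearMap.toMatrix'_mulVec]
  have hPmem : ∀ u, b ⬝ᵥ P u = 0 ∧ c ⬝ᵥ P u = 0 := by
    intro u
    exact (g u).2
  have hPid : ∀ u : V h, b ⬝ᵥ u = 0 → c ⬝ᵥ u = 0 → P u = u := by
    intro u h1 h2
    have h3 := LinearMap.congr_fun hg (⟨u, h1, h2⟩ : S)
    simp only [LinearMap.comp_apply, Submodule.subtype_apply, LinearMap.id_apply] at h3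
    simp only [hP, LinearMap.comp_apply, Submodule.subtype_apply]
    rw [h3]
  set H : Finset (V h) := univ.filter (fun u : V h => b ⬝ᵥ u = 0 ∧ c ⬝ᵥ u = 0) with hH
  set f : V h → ℕ := fun u => wt (fun v => E e v (y v) u) with hf
  -- fibres
  have hfib : H.card * ∑ u, f (P u) = Fintype.card (V h) * ∑ w ∈ H, f w := by
    have h1 : ∀ w0 ∈ H, ∑ u, f (P u) = ∑ u, f (P u + w0) := by
      intro w0 hw0
      simp only [hH, mem_filter, mem_univ, true_and] at hw0
      rw [← Equiv.sum_comp (Equiv.addRight w0) (fun u => f (P u))]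
      apply Finset.sum_congr rfl
      intro u _
      simp only [Equiv.coe_addRight]
      rw [map_add, hPid w0 hw0.1 hw0.2]
    have h2 : ∑ w0 ∈ H, ∑ u, f (P u) = ∑ w0 ∈ H, ∑ u, f (P u + w0) :=
      Finset.sum_congr rfl h1
    rw [Finset.sum_const, smul_eq_mul] at h2
    rw [h2, Finset.sum_comm]
    have h3 : ∀ u : V h, ∑ w0 ∈ H, f (P u + w0) = ∑ w ∈ H, f w := by
      intro u
      apply Finset.sum_bij (fun w0 _ => P u + w0)
      · intro w hw
        simp only [hH, mem_filter, mem_univ, true_and] at hw ⊢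
        rw [dotProduct_add, dotProduct_add, (hPmem u).1, (hPmem u).2, hw.1, hw.2]
        simp
      · intro w _ w' _ hww
        exact add_left_cancel hww
      · intro w hw
        refine ⟨P u + w, ?_, ?_⟩
        · simp only [hH, mem_filter, mem_univ, true_and] at hw ⊢
          rw [dotProduct_add, dotProduct_add, (hPmem u).1, (hPmem u).2, hw.1, hw.2]
          simp
        · rw [← add_assoc, add_self_V, zero_add]
      · intro w _
        rfl
    rw [Finset.sum_congr rfl (fun u _ => h3 u), Finset.sum_const, Finset.card_univ, smul_eq_mul]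
  have hq := Q0 (fun u => e (P u)) (fun u => he _) (fun v => Matrix.vecMul (y v) M)
  have h4 : ∑ v, D (fun u => e (P u)) v (Matrix.vecMul (y v) M) = ∑ u, f (P u) := by
    have h5 : ∀ v u, E (fun u => e (P u)) v (Matrix.vecMul (y v) M) u = E e v (y v) (P u) := by
      intro v u
      unfold E
      rw [← Matrix.dotProduct_mulVec, hMv]
    simp only [D, hf, wt_eq_sum, h5]
    rw [Finset.sum_comm]
  rw [h4] at hq
  have hpos : 0 < Fintype.card (V h) := Fintype.card_pos
  have h6 : H.card * (Fintype.card (V h) * Fintype.card (V h))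
      ≤ 8 * (Fintype.card (V h) * ∑ w ∈ H, f w) := by
    rw [← hfib]
    calc H.card * (Fintype.card (V h) * Fintype.card (V h))
        ≤ H.card * (8 * ∑ u, f (P u)) := Nat.mul_le_mul_left _ hq
      _ = _ := by ring
  have h7 : Fintype.card (V h) * (H.card * Fintype.card (V h))
      ≤ Fintype.card (V h) * (8 * ∑ w ∈ H, f w) := by
    calc Fintype.card (V h) * (H.card * Fintype.card (V h))
        = H.card * (Fintype.card (V h) * Fintype.card (V h)) := by ring
      _ ≤ 8 * (Fintype.card (V h) * ∑ w ∈ H, f w) := h6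
      _ = _ := by ring
  exact Nat.le_of_mul_le_mul_left h7 hpos

end Pool.H42.Hat
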