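import Pool.Agent.H42.Hat.NearGame

set_option autoImplicit false

namespace Pool.H42.Hat

open Finset

/-- a stack constant on three positions: at least a quarter of all stacks -/
lemma card_const {h : ℕ} (i j k : Fin h) :
    Fintype.card (V h) ≤ 4 * (univ.filter fun v : V h => v i + v j = 0 ∧ v i + v k = 0).card := by
  classical
  have hsplit := Finset.card_filter_add_card_filter_not
    (s := univ.filter fun v : V h => v i + v j = 0) (fun v => v i + v k = 0)
  rw [Finset.filter_filter, Finset.filter_filter] at hsplit
  have hadd : ∀ a b : Fin h, ∀ v w : V h, (v + w) a + (v + w) b = (v a + v b) + (w a + w b) := by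
    intro a b v w
    simp only [Pi.add_apply]
    ring
  by_cases hij : ∃ v : V h, v i + v j ≠ 0
  · have h1 := four_mul_card_le (fun v : V h => v i + v k) (fun v : V h => v i + v j)
      (hadd i k) (hadd i j) hij
    have h2 := two_mul_wt_additive (fun v : V h => v i + v j) (hadd i j) hij
    have h3 := Finset.card_filter_add_card_filter_not (s := (univ : Finset (V h)))
      (fun v => v i + v j = 0)
    have h4 : wt (fun v : V h => v i + v j) = (univ.filter fun v : V h => ¬ v i + v j = 0).card :=
      rfl
    rw [← h4, Finset.card_univ] at h3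
    have h5 : (univ.filter fun v : V h => v i + v j = 0 ∧ v i + v k ≠ 0).card
        = (univ.filter fun v : V h => v i + v j = 0 ∧ ¬ v i + v k = 0).card := rfl
    rw [h5] at h1
    omega
  · push Not at hij
    have h2 := two_mul_wt_additive_le (fun v : V h => v i + v k) (hadd i k)
    have h3 := Finset.card_filter_add_card_filter_not (s := (univ : Finset (V h)))
      (fun v => v i + v k = 0)
    have h4 : wt (fun v : V h => v i + v k) = (univ.filter fun v : V h => ¬ v i + v k = 0).card :=
      rfl
    rw [← h4, Finset.card_univ] at h3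
    have h5 : (univ.filter fun v : V h => v i + v j = 0 ∧ v i + v k = 0)
        = (univ.filter fun v : V h => v i + v k = 0) := by
      ext v
      simp [hij v]
    rw [h5]
    omega

/-- If `G` only names three positions, the winning probability is at most `11/32`. -/
theorem three_core {h : ℕ} (F G : V h → Fin h) (i j k : Fin h)
    (hG : ∀ u, G u = i ∨ G u = j ∨ G u = k) :
    32 * ∑ u, ∑ v, wins F G u v ≤ 11 * (Fintype.card (V h) * Fintype.card (V h)) := by
  classical
  have h1 := four_wins_le F G (fun u => G (u + one h)) (fun _ _ => rfl)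
  set N := Fintype.card (V h) with hN
  set C : Finset (V h) := univ.filter fun v : V h => v i + v j = 0 ∧ v i + v k = 0 with hC
  have hCcard : N ≤ 4 * C.card := card_const i j k
  set y : V h → V h := fun v => Pi.single (F v) 1 + Pi.single (F (v + one h)) 1 with hy
  have h2 : ∑ u, ∑ v, (if (Pi.single (F v) 1 + Pi.single (F (v + one h)) 1 : V h) ⬝ᵥ u ≠ 0 ∧
          v ⬝ᵥ (Pi.single (G u) 1 + Pi.single (G (u + one h)) 1 : V h) ≠ 0 then 1 else 0)
      ≤ ∑ v ∈ univ \ C, wt (fun u => y v ⬝ᵥ u) := by
    rw [Finset.sum_comm, ← Finset.sum_sdiff (Finset.subset_univ C)]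
    have hz : ∑ v ∈ C, ∑ u, (if (Pi.single (F v) 1 + Pi.single (F (v + one h)) 1 : V h) ⬝ᵥ u ≠ 0 ∧
          v ⬝ᵥ (Pi.single (G u) 1 + Pi.single (G (u + one h)) 1 : V h) ≠ 0 then 1 else 0) = 0 := by
      apply Finset.sum_eq_zero
      intro v hv
      apply Finset.sum_eq_zero
      intro u _
      simp only [hC, mem_filter, mem_univ, true_and] at hv
      have hconst : ∀ a : Fin h, (a = i ∨ a = j ∨ a = k) → v a = v i := by
        intro a ha
        rcases ha with rfl | rfl | rfl
        · rfl
        · have := hv.1
          revert this
          generalize v i = x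
          generalize v a = y
          revert x y
          decide
        · have := hv.2
          revert this
          generalize v i = x
          generalize v a = y
          revert x y
          decide
      have h3 : v ⬝ᵥ (Pi.single (G u) 1 + Pi.single (G (u + one h)) 1 : V h) = 0 := by
        rw [dot_pair', hconst _ (hG u), hconst _ (hG (u + one h))]
        generalize v i = x
        revert x
        decide
      rw [h3]
      simp
    rw [hz, add_zero]
    apply Finset.sum_le_sum
    intro v _
    rw [wt_eq_sum]
    apply Finset.sum_le_sum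
    intro u _
    by_cases h4 : y v ⬝ᵥ u ≠ 0
    · rw [if_pos h4]
      split_ifs <;> omega
    · rw [if_neg h4]
      rw [if_neg]
      exact fun h5 => h4 h5.1
  have h3 : 2 * ∑ v ∈ univ \ C, wt (fun u => y v ⬝ᵥ u) ≤ (N - C.card) * N := by
    rw [Finset.mul_sum]
    have : ∑ v ∈ univ \ C, 2 * wt (fun u => y v ⬝ᵥ u) ≤ ∑ _v ∈ univ \ C, N := by
      apply Finset.sum_le_sum
      intro v _
      exact two_mul_wt_additive_le _ (fun a b => dotProduct_add _ _ _)
    refine this.trans ?_
    rw [Finset.sum_const, smul_eq_mul, Finset.card_sdiff_of_subset (Finset.subset_univ C),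
      Finset.card_univ]
  have h4 : C.card ≤ N := Finset.card_le_univ _
  have h5 : 4 * (N - C.card) ≤ 3 * N := by omega
  have h6 : 4 * (N - C.card) * N ≤ 3 * N * N := Nat.mul_le_mul_right _ h5
  nlinarith

end Pool.H42.Hat
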